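import Mathlib

set_option autoImplicit false

open Finset

namespace Pool.Agent.H510R2.Incr

/-- the primitive root of unity -/
noncomputable def zt (M : ℕ) : ℂ := Complex.exp (2 * Real.pi * Complex.I / M)

lemma zt_prim (M : ℕ) (hM : M ≠ 0) : IsPrimitiveRoot (zt M) M := Complex.isPrimitiveRoot_exp M hM

lemma zt_norm (M : ℕ) : ‖zt M‖ = 1 := by
  unfold zt
  have : (2 * Real.pi * Complex.I / M : ℂ) = ((2 * Real.pi / M : ℝ) : ℂ) * Complex.I := by
    push_cast; ring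
  rw [this, Complex.norm_exp_ofReal_mul_I]

/-- Orthogonality / Parseval over the `M`-th roots of unity. -/
lemma parseval (M : ℕ) (hM : 0 < M) (B : Finset ℕ) (φ : ℕ → ℕ)
    (hφ : ∀ a ∈ B, ∀ b ∈ B, φ a ≡ φ b [MOD M] → a = b) (w : ℕ → ℝ) :
    ∑ i ∈ range M, ‖∑ a ∈ B, (w a : ℂ) * ((zt M) ^ i) ^ (φ a)‖ ^ 2 = M * ∑ a ∈ B, w a ^ 2 := by
  have hp := zt_prim M hM.ne'
  have hunit : zt M * (starRingEnd ℂ) (zt M) = 1 := by
    rw [Complex.mul_conj, Complex.normSq_eq_norm_sq, zt_norm]; simp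
  have hne : zt M ≠ 0 := by
    intro h; rw [h, zero_mul] at hunit; exact zero_ne_one hunit
  have key : (∑ i ∈ range M, ((‖∑ a ∈ B, (w a : ℂ) * ((zt M) ^ i) ^ (φ a)‖ ^ 2 : ℝ) : ℂ)) =
      ((M * ∑ a ∈ B, w a ^ 2 : ℝ) : ℂ) := by
    have h1 : ∀ i ∈ range M, ((‖∑ a ∈ B, (w a : ℂ) * ((zt M) ^ i) ^ (φ a)‖ ^ 2 : ℝ) : ℂ) =
        ∑ a ∈ B, ∑ b ∈ B, (w a : ℂ) * (w b : ℂ) *
          ((zt M) ^ (φ a) * ((starRingEnd ℂ) (zt M)) ^ (φ b)) ^ i := by
      intro i _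
      rw [← Complex.normSq_eq_norm_sq, ← Complex.mul_conj, map_sum, Finset.sum_mul_sum]
      refine Finset.sum_congr rfl fun a _ => Finset.sum_congr rfl fun b _ => ?_
      rw [map_mul, map_pow, map_pow, Complex.conj_ofReal, mul_pow, ← pow_mul, ← pow_mul, ← pow_mul,
        ← pow_mul, mul_comm i, mul_comm i]
      ring
    rw [Finset.sum_congr rfl h1, Finset.sum_comm]
    have h2 : ∀ a ∈ B, ∑ i ∈ range M, ∑ b ∈ B, (w a : ℂ) * (w b : ℂ) *
          ((zt M) ^ (φ a) * ((starRingEnd ℂ) (zt M)) ^ (φ b)) ^ i = (M : ℂ) * (w a : ℂ) ^ 2 := by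
      intro a ha
      rw [Finset.sum_comm]
      rw [Finset.sum_eq_single_of_mem a ha]
      · have : (zt M) ^ (φ a) * ((starRingEnd ℂ) (zt M)) ^ (φ a) = 1 := by
          rw [← mul_pow, hunit, one_pow]
        simp only [this, one_pow, mul_one, Finset.sum_const, Finset.card_range, nsmul_eq_mul]
        ring
      · intro b hb hba
        rw [← Finset.mul_sum]
        have hv : (zt M) ^ (φ a) * ((starRingEnd ℂ) (zt M)) ^ (φ b) ≠ 1 := by
          intro hv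
          have h3 : (zt M) ^ (φ a) = (zt M) ^ (φ b) := by
            have h4 : (zt M) ^ (φ b) * ((starRingEnd ℂ) (zt M)) ^ (φ b) = 1 := by
              rw [← mul_pow, hunit, one_pow]
            have h5 : ((starRingEnd ℂ) (zt M)) ^ (φ b) ≠ 0 := by
              intro h; rw [h, mul_zero] at h4; exact zero_ne_one h4
            exact mul_right_cancel₀ h5 (hv.trans h4.symm)
          apply hba
          symm
          apply hφ a ha b hb
          have hinj := hp.pow_inj (i := φ a % M) (j := φ b % M) (Nat.mod_lt _ hM) (Nat.mod_lt _ hM)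
          apply hinj
          rw [← pow_eq_pow_mod _ hp.pow_eq_one, ← pow_eq_pow_mod _ hp.pow_eq_one]
          exact h3
        have hvM : ((zt M) ^ (φ a) * ((starRingEnd ℂ) (zt M)) ^ (φ b)) ^ M = 1 := by
          rw [mul_pow, ← pow_mul, ← pow_mul, mul_comm (φ a), mul_comm (φ b), pow_mul, pow_mul,
            ← map_pow, hp.pow_eq_one]
          simp
        have : ∑ i ∈ range M, ((zt M) ^ (φ a) * ((starRingEnd ℂ) (zt M)) ^ (φ b)) ^ i = 0 := by
          have h6 := mul_geom_sum ((zt M) ^ (φ a) * ((starRingEnd ℂ) (zt M)) ^ (φ b)) M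
          rw [hvM, sub_self] at h6
          exact (mul_eq_zero.1 h6).resolve_left (sub_ne_zero.2 hv)
        rw [this, mul_zero]
    rw [Finset.sum_congr rfl h2, ← Finset.mul_sum]
    push_cast
    rfl
  have := key
  rw [← Complex.ofReal_sum] at this
  exact_mod_cast this

/-- distance of a point of the circle from `1` -/
lemma dist_lower (M : ℕ) (ρ : ℝ) (hρ : 1 / 2 ≤ ρ) (i : ℕ) (hi0 : 0 < i) (hiM : i < M) :
    min (i : ℝ) (M - i) / M ≤ ‖1 - (ρ : ℂ) * (zt M) ^ i‖ := by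
  have hM : (0 : ℝ) < M := by exact_mod_cast (by omega : 0 < M)
  have hi0' : (0 : ℝ) < i := by exact_mod_cast hi0
  have hiM' : (i : ℝ) < M := by exact_mod_cast hiM
  set θ : ℝ := 2 * Real.pi * i / M with hθ
  have e1 : (zt M) ^ i = Complex.exp (θ * Complex.I) := by
    unfold zt
    rw [← Complex.exp_nat_mul]
    congr 1
    rw [hθ]; push_cast; ring
  have e2 : 1 - (ρ : ℂ) * (zt M) ^ i = ((1 - ρ * Real.cos θ : ℝ) : ℂ) + ((-(ρ * Real.sin θ) : ℝ) : ℂ) * Complex.I := by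
    rw [e1, Complex.exp_mul_I]
    push_cast
    rw [← Complex.ofReal_cos, ← Complex.ofReal_sin]
    ring
  have e3 : ‖1 - (ρ : ℂ) * (zt M) ^ i‖ ^ 2 = (1 - ρ * Real.cos θ) ^ 2 + (ρ * Real.sin θ) ^ 2 := by
    rw [← Complex.normSq_eq_norm_sq, e2, Complex.normSq_add_mul_I]
    ring
  have e4 : Real.cos θ = 1 - 2 * Real.sin (θ / 2) ^ 2 := by
    have h1 := Real.cos_two_mul (θ / 2)
    have h2 := Real.sin_sq_add_cos_sq (θ / 2)
    have h3 : 2 * (θ / 2) = θ := by ring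
    rw [h3] at h1
    linarith
  have e5 : Real.sin (θ / 2) ^ 2 ≤ ‖1 - (ρ : ℂ) * (zt M) ^ i‖ ^ 2 := by
    rw [e3]
    have h1 := Real.sin_sq_add_cos_sq θ
    have h2 : (1 - ρ * Real.cos θ) ^ 2 + (ρ * Real.sin θ) ^ 2 =
        (1 - ρ) ^ 2 + 2 * ρ * (1 - Real.cos θ) := by nlinarith
    rw [h2, e4]
    have h3 : 0 ≤ Real.sin (θ / 2) ^ 2 := sq_nonneg _
    nlinarith [sq_nonneg (1 - ρ)]
  have hpi := Real.pi_pos
  have e6 : min (i : ℝ) (M - i) / M ≤ Real.sin (θ / 2) := by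
    have hh : θ / 2 = Real.pi * i / M := by rw [hθ]; ring
    rcases le_total (i : ℝ) (M - i) with h | h
    · rw [min_eq_left h]
      have h1 : 2 / Real.pi * (θ / 2) ≤ Real.sin (θ / 2) := by
        apply Real.mul_le_sin
        · rw [hh]; positivity
        · rw [hh, div_le_div_iff₀ hM (by norm_num)]
          nlinarith
      refine le_trans ?_ h1
      rw [hh]
      have : 2 / Real.pi * (Real.pi * i / M) = 2 * i / M := by field_simp
      rw [this]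
      gcongr
      linarith
    · rw [min_eq_right h]
      have h1 : 2 / Real.pi * (Real.pi - θ / 2) ≤ Real.sin (Real.pi - θ / 2) := by
        have e7 : Real.pi - θ / 2 = Real.pi * (M - i) / M := by rw [hh]; field_simp
        apply Real.mul_le_sin
        · rw [e7]
          have : (0 : ℝ) < M - i := by linarith
          positivity
        · rw [e7, div_le_div_iff₀ hM (by norm_num)]
          nlinarith
      rw [Real.sin_pi_sub] at h1
      refine le_trans ?_ h1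
      have e7 : Real.pi - θ / 2 = Real.pi * (M - i) / M := by rw [hh]; field_simp
      rw [e7]
      have : 2 / Real.pi * (Real.pi * (M - i) / M) = 2 * (M - i) / M := by field_simp
      rw [this]
      gcongr
      linarith
  have e8 : 0 ≤ min (i : ℝ) (M - i) / M := by
    have : (0 : ℝ) < M - i := by linarith
    positivity
  calc min (i : ℝ) (M - i) / M ≤ Real.sin (θ / 2) := e6
    _ ≤ ‖1 - (ρ : ℂ) * (zt M) ^ i‖ := by
      have h0 : 0 ≤ Real.sin (θ / 2) := e8.trans e6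
      exact (sq_le_sq₀ h0 (norm_nonneg _)).1 e5

lemma sum_rpow (s : ℝ) (hs0 : 0 ≤ s) (hs1 : s < 1) (m : ℕ) :
    ∑ i ∈ range m, ((i : ℝ) + 1) ^ (-s) ≤ (m : ℝ) ^ (1 - s) / (1 - s) := by
  induction m with
  | zero =>
    simp only [range_zero, sum_empty, Nat.cast_zero]
    have : (0:ℝ) ^ (1 - s) = 0 := Real.zero_rpow (by linarith)
    rw [this]; simp
  | succ m ih =>
    rw [Finset.sum_range_succ]
    refine (add_le_add_left ih _).trans ?_
    have h1s : 0 < 1 - s := by linarith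
    rw [div_add' _ _ _ h1s.ne']
    apply div_le_div_of_nonneg_right _ h1s.le
    push_cast
    have hm : (0 : ℝ) < m + 1 := by positivity
    -- Bernoulli
    have hb := rpow_one_add_le_one_add_mul_self (s := -1 / ((m : ℝ) + 1))
      (by rw [le_div_iff₀ hm]; nlinarith [(Nat.cast_nonneg m : (0:ℝ) ≤ m)])
      (p := 1 - s) h1s.le (by linarith)
    have e1 : (1 + -1 / ((m : ℝ) + 1)) = m / (m + 1) := by field_simp; ring
    rw [e1, Real.div_rpow (by positivity) (by positivity), div_le_iff₀ (by positivity)] at hb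
    have e2 : (1 + (1 - s) * (-1 / ((m : ℝ) + 1))) * ((m : ℝ) + 1) ^ (1 - s) =
        ((m : ℝ) + 1) ^ (1 - s) - (1 - s) * ((m : ℝ) + 1) ^ (-s) := by
      have : ((m : ℝ) + 1) ^ (1 - s) = (m + 1) * ((m : ℝ) + 1) ^ (-s) := by
        rw [sub_eq_add_neg, Real.rpow_add hm, Real.rpow_one]
      rw [this]; field_simp; ring
    rw [e2] at hb
    linarith

/-- the average of `‖1 - z‖ ^ (-s)` over the `M` points is bounded -/
lemma avg_bound (s : ℝ) (hs0 : 0 < s) (hs1 : s < 1) (M : ℕ) (ρ : ℝ)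
    (hρ : 1 / 2 ≤ ρ) (hρ1 : ρ < 1) (hM : 1 ≤ M * (1 - ρ)) :
    ∑ i ∈ range M, ‖1 - (ρ : ℂ) * (zt M) ^ i‖ ^ (-s) ≤ M * (1 + 2 / (1 - s)) := by
  have h1s : 0 < 1 - s := by linarith
  have hMpos : 0 < M := by
    rcases Nat.eq_zero_or_pos M with h | h
    · rw [h] at hM; norm_num at hM
    · exact h
  have hMR : (0 : ℝ) < M := by exact_mod_cast hMpos
  obtain ⟨m, rfl⟩ : ∃ m, M = m + 1 := ⟨M - 1, by omega⟩
  rw [Finset.sum_range_succ']
  have h0 : ‖1 - (ρ : ℂ) * (zt (m + 1)) ^ 0‖ ^ (-s) ≤ ((m + 1 : ℕ) : ℝ) := by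
    have e0 : ‖1 - (ρ : ℂ) * (zt (m + 1)) ^ 0‖ = 1 - ρ := by
      rw [pow_zero, mul_one]
      have : (1 - (ρ : ℂ)) = ((1 - ρ : ℝ) : ℂ) := by push_cast; rfl
      rw [this, Complex.norm_real, Real.norm_of_nonneg (by linarith)]
    rw [e0]
    have h1 : (1 - ρ) ^ (-s) ≤ (1 - ρ) ^ (-1 : ℝ) :=
      Real.rpow_le_rpow_of_exponent_ge (by linarith) (by linarith) (by linarith)
    refine h1.trans ?_
    rw [Real.rpow_neg_one, inv_le_comm₀ (by linarith) hMR, inv_eq_one_div, div_le_iff₀ hMR]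
    linarith
  have h1 : ∀ i ∈ range m, ‖1 - (ρ : ℂ) * (zt (m + 1)) ^ (i + 1)‖ ^ (-s) ≤
      (((m + 1 : ℕ) : ℝ)) ^ s * ((i : ℝ) + 1) ^ (-s) +
      (((m + 1 : ℕ) : ℝ)) ^ s * (((m - 1 - i : ℕ) : ℝ) + 1) ^ (-s) := by
    intro i hi
    have hi' := Finset.mem_range.1 hi
    have h2 := dist_lower (m + 1) ρ hρ (i + 1) (by omega) (by omega)
    have e9 : ((m - 1 - i : ℕ) : ℝ) + 1 = ((m + 1 : ℕ) : ℝ) - ((i + 1 : ℕ) : ℝ) := by
      have : m + 1 = (m - 1 - i) + 1 + (i + 1) := by omega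
      have h3 : ((m + 1 : ℕ) : ℝ) = (((m - 1 - i) + 1 + (i + 1) : ℕ) : ℝ) := by rw [← this]
      rw [h3]; push_cast; ring
    rw [e9]
    have e10 : ((i : ℝ) + 1) = ((i + 1 : ℕ) : ℝ) := by push_cast; rfl
    rw [e10]
    have hipos : (0 : ℝ) < ((i + 1 : ℕ) : ℝ) := by positivity
    have hmpos : (0 : ℝ) < ((m + 1 : ℕ) : ℝ) - ((i + 1 : ℕ) : ℝ) := by
      have : ((i + 1 : ℕ) : ℝ) < ((m + 1 : ℕ) : ℝ) := by exact_mod_cast (by omega : i + 1 < m + 1)
      linarith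
    have gen : ∀ t : ℝ, 0 < t → t / ((m + 1 : ℕ) : ℝ) ≤ ‖1 - (ρ : ℂ) * (zt (m + 1)) ^ (i + 1)‖ →
        ‖1 - (ρ : ℂ) * (zt (m + 1)) ^ (i + 1)‖ ^ (-s) ≤ (((m + 1 : ℕ) : ℝ)) ^ s * t ^ (-s) := by
      intro t ht h
      have h3 : 0 < t / ((m + 1 : ℕ) : ℝ) := by positivity
      calc ‖1 - (ρ : ℂ) * (zt (m + 1)) ^ (i + 1)‖ ^ (-s) ≤ (t / ((m + 1 : ℕ) : ℝ)) ^ (-s) :=
            Real.rpow_le_rpow_of_nonpos h3 h (by linarith)
        _ = (((m + 1 : ℕ) : ℝ)) ^ s * t ^ (-s) := by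
            rw [Real.div_rpow ht.le (by positivity), Real.rpow_neg (by positivity : (0:ℝ) ≤ ((m + 1 : ℕ) : ℝ))]
            field_simp
    rcases le_total ((i + 1 : ℕ) : ℝ) (((m + 1 : ℕ) : ℝ) - ((i + 1 : ℕ) : ℝ)) with h | h
    · rw [min_eq_left h] at h2
      have := gen _ hipos h2
      have h5 : 0 ≤ (((m + 1 : ℕ) : ℝ)) ^ s * (((m + 1 : ℕ) : ℝ) - ((i + 1 : ℕ) : ℝ)) ^ (-s) := by
        positivity
      linarith
    · rw [min_eq_right h] at h2
      have := gen _ hmpos h2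
      have h5 : 0 ≤ (((m + 1 : ℕ) : ℝ)) ^ s * (((i + 1 : ℕ) : ℝ)) ^ (-s) := by
        positivity
      linarith
  have h2 := Finset.sum_le_sum h1
  rw [Finset.sum_add_distrib, ← Finset.mul_sum, ← Finset.mul_sum] at h2
  have h3 : ∑ i ∈ range m, (((m - 1 - i : ℕ) : ℝ) + 1) ^ (-s) = ∑ i ∈ range m, ((i : ℝ) + 1) ^ (-s) :=
    Finset.sum_range_reflect (fun i : ℕ => ((i : ℝ) + 1) ^ (-s)) m
  rw [h3] at h2
  have h4 : ∑ i ∈ range m, ((i : ℝ) + 1) ^ (-s) ≤ (((m + 1 : ℕ) : ℝ)) ^ (1 - s) / (1 - s) := by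
    refine (sum_rpow s hs0.le hs1 m).trans ?_
    apply div_le_div_of_nonneg_right _ h1s.le
    apply Real.rpow_le_rpow (by positivity) _ h1s.le
    push_cast; linarith
  have h5 : (((m + 1 : ℕ) : ℝ)) ^ s * ((((m + 1 : ℕ) : ℝ)) ^ (1 - s) / (1 - s)) =
      ((m + 1 : ℕ) : ℝ) / (1 - s) := by
    rw [← mul_div_assoc, ← Real.rpow_add hMR]
    have : s + (1 - s) = 1 := by ring
    rw [this, Real.rpow_one]
  have h6 : (((m + 1 : ℕ) : ℝ)) ^ s * ∑ i ∈ range m, ((i : ℝ) + 1) ^ (-s) ≤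
      ((m + 1 : ℕ) : ℝ) / (1 - s) := by
    rw [← h5]
    exact mul_le_mul_of_nonneg_left h4 (by positivity)
  have h7 : ((m + 1 : ℕ) : ℝ) * (1 + 2 / (1 - s)) = ((m + 1 : ℕ) : ℝ) / (1 - s) +
      ((m + 1 : ℕ) : ℝ) / (1 - s) + ((m + 1 : ℕ) : ℝ) := by ring
  rw [h7]
  linarith

end Pool.Agent.H510R2.Incr
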