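import Mathlib

set_option autoImplicit false

open Finset

namespace Pool.Agent.H510R2.Incr

/-! ### Abstract Newton recursions -/

section Abstract

lemma newton_h_step (h h' p : ℕ → ℂ) (x : ℂ) (h0 : h 0 = 1) (h0' : h' 0 = 1)
    (hrec : ∀ m, h' (m + 1) = h (m + 1) + x * h' m)
    (hN : ∀ m : ℕ, ((m : ℂ) + 1) * h (m + 1) = ∑ j ∈ range (m + 1), h (m - j) * p (j + 1)) :
    ∀ m : ℕ, ((m : ℂ) + 1) * h' (m + 1) =
      ∑ j ∈ range (m + 1), h' (m - j) * (x ^ (j + 1) + p (j + 1)) := by
  intro m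
  induction m with
  | zero =>
    have := hN 0
    simp only [zero_add, Finset.sum_range_one, Nat.sub_zero, Nat.cast_zero, one_mul] at this ⊢
    rw [hrec 0, this, h0, h0']
    ring
  | succ m ih =>
    have e1 : ∑ j ∈ range (m + 1 + 1), h' (m + 1 - j) * (x ^ (j + 1) + p (j + 1)) =
        (∑ j ∈ range (m + 1 + 1), h' (m + 1 - j) * x ^ (j + 1)) +
          ∑ j ∈ range (m + 1 + 1), h' (m + 1 - j) * p (j + 1) := by
      rw [← Finset.sum_add_distrib]
      exact Finset.sum_congr rfl fun j _ => by ring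
    have e2 : ∑ j ∈ range (m + 1 + 1), h' (m + 1 - j) * x ^ (j + 1) =
        h' (m + 1) * x + x * ∑ j ∈ range (m + 1), h' (m - j) * x ^ (j + 1) := by
      rw [Finset.sum_range_succ', add_comm, Finset.mul_sum]
      congr 1
      · simp
      · refine Finset.sum_congr rfl fun j hj => ?_
        have : m + 1 - (j + 1) = m - j := by omega
        rw [this]; ring
    have e3 : ∑ j ∈ range (m + 1 + 1), h' (m + 1 - j) * p (j + 1) =
        (∑ j ∈ range (m + 1 + 1), h (m + 1 - j) * p (j + 1)) +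
          x * ∑ j ∈ range (m + 1), h' (m - j) * p (j + 1) := by
      rw [Finset.sum_range_succ, Finset.sum_range_succ (fun j => h (m + 1 - j) * p (j + 1)),
        Finset.mul_sum, Nat.sub_self, h0, h0']
      have : ∑ j ∈ range (m + 1), h' (m + 1 - j) * p (j + 1) =
          ∑ j ∈ range (m + 1), h (m + 1 - j) * p (j + 1) +
          ∑ j ∈ range (m + 1), x * (h' (m - j) * p (j + 1)) := by
        rw [← Finset.sum_add_distrib]
        refine Finset.sum_congr rfl fun j hj => ?_
        have hj' := Finset.mem_range.1 hj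
        have : m + 1 - j = (m - j) + 1 := by omega
        rw [this, hrec]; ring
      rw [this]; ring
    rw [e1, e2, e3, ← hN (m + 1)]
    have e4 : x * ∑ j ∈ range (m + 1), h' (m - j) * x ^ (j + 1) +
        x * ∑ j ∈ range (m + 1), h' (m - j) * p (j + 1) = x * (((m : ℂ) + 1) * h' (m + 1)) := by
      rw [ih, ← mul_add, ← Finset.sum_add_distrib]
      congr 1
      exact Finset.sum_congr rfl fun j _ => by ring
    rw [hrec (m + 1)] at *
    push_cast
    linear_combination (-1 : ℂ) * e4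

lemma newton_e_step (e e' p : ℕ → ℂ) (x : ℂ) (h0 : e 0 = 1) (h0' : e' 0 = 1)
    (hrec : ∀ m, e' (m + 1) = e (m + 1) + x * e m)
    (hN : ∀ m : ℕ, ((m : ℂ) + 1) * e (m + 1) =
      ∑ j ∈ range (m + 1), (-1) ^ j * e (m - j) * p (j + 1)) :
    ∀ m : ℕ, ((m : ℂ) + 1) * e' (m + 1) =
      ∑ j ∈ range (m + 1), (-1) ^ j * e' (m - j) * (x ^ (j + 1) + p (j + 1)) := by
  have hx : ∀ m : ℕ, ∑ j ∈ range (m + 1), (-1) ^ j * e' (m - j) * x ^ (j + 1) = x * e m := by
    intro m
    induction m with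
    | zero => simp [h0, h0']
    | succ m ih =>
      rw [Finset.sum_range_succ']
      have : ∑ k ∈ range (m + 1), (-1) ^ (k + 1) * e' (m + 1 - (k + 1)) * x ^ (k + 1 + 1) =
          -x * ∑ j ∈ range (m + 1), (-1) ^ j * e' (m - j) * x ^ (j + 1) := by
        rw [Finset.mul_sum]
        refine Finset.sum_congr rfl fun j _ => ?_
        have : m + 1 - (j + 1) = m - j := by omega
        rw [this]; ring
      rw [this, ih, Nat.sub_zero, hrec]
      ring
  intro m
  have e1 : ∑ j ∈ range (m + 1), (-1) ^ j * e' (m - j) * (x ^ (j + 1) + p (j + 1)) =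
      x * e m + ∑ j ∈ range (m + 1), (-1) ^ j * e' (m - j) * p (j + 1) := by
    rw [← hx m, ← Finset.sum_add_distrib]
    exact Finset.sum_congr rfl fun j _ => by ring
  rw [e1]
  cases m with
  | zero =>
    have := hN 0
    simp only [zero_add, Finset.sum_range_one, Nat.sub_zero, Nat.cast_zero, one_mul, pow_zero]
      at this ⊢
    rw [hrec 0, this, h0, h0']
    ring
  | succ m =>
    have e3 : ∑ j ∈ range (m + 1 + 1), (-1) ^ j * e' (m + 1 - j) * p (j + 1) =
        (∑ j ∈ range (m + 1 + 1), (-1) ^ j * e (m + 1 - j) * p (j + 1)) +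
          x * ∑ j ∈ range (m + 1), (-1) ^ j * e (m - j) * p (j + 1) := by
      rw [Finset.sum_range_succ, Finset.sum_range_succ (fun j => (-1) ^ j * e (m + 1 - j) * p (j + 1)),
        Finset.mul_sum, Nat.sub_self, h0, h0']
      have : ∑ j ∈ range (m + 1), (-1) ^ j * e' (m + 1 - j) * p (j + 1) =
          ∑ j ∈ range (m + 1), (-1) ^ j * e (m + 1 - j) * p (j + 1) +
          ∑ j ∈ range (m + 1), x * ((-1) ^ j * e (m - j) * p (j + 1)) := by
        rw [← Finset.sum_add_distrib]
        refine Finset.sum_congr rfl fun j hj => ?_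
        have hj' := Finset.mem_range.1 hj
        have : m + 1 - j = (m - j) + 1 := by omega
        rw [this, hrec]; ring
      rw [this]; ring
    rw [e3, ← hN (m + 1), ← hN m, hrec (m + 1)]
    push_cast
    ring

/-- If the higher power sums are small compared with `‖p 1‖` then `‖e k‖` is at least
`‖p 1‖ ^ k / (2 k!)`. -/
lemma newton_lower (k : ℕ) (hk : 1 ≤ k) (e p s : ℕ → ℂ) (he : e 0 = 1) (hs0 : s 0 = 1)
    (hs : ∀ j, ‖s j‖ ≤ 1)
    (hN : ∀ m : ℕ, ((m : ℂ) + 1) * e (m + 1) = ∑ j ∈ range (m + 1), s j * e (m - j) * p (j + 1))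
    (y η : ℝ) (hy : 0 ≤ y) (hη : 0 < η) (hη1 : η ≤ 1)
    (hη2 : 4 * (k : ℝ) ^ 2 * (k.factorial : ℝ) * η ^ 2 ≤ 1)
    (hp : ∀ j, 2 ≤ j → j ≤ k → ‖p j‖ ≤ y ^ j) (hyx : y ≤ η * ‖p 1‖) :
    ‖p 1‖ ^ k ≤ 2 * (k.factorial : ℝ) * ‖e k‖ := by
  set x := ‖p 1‖ with hx
  have hx0 : 0 ≤ x := norm_nonneg _
  set D : ℝ := 2 * k * (k.factorial : ℝ) * η ^ 2 with hD
  have hkR : (1 : ℝ) ≤ k := by exact_mod_cast hk
  have hD0 : 0 ≤ D := by positivity
  have hkD : (k : ℝ) * D ≤ 1 / 2 := by
    rw [hD]; nlinarith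
  have key : ∀ m ≤ k, ‖(m.factorial : ℂ) * e m - p 1 ^ m‖ ≤ m * D * x ^ m := by
    intro m
    induction m using Nat.strong_induction_on with
    | _ m ih =>
      intro hm
      rcases m with _ | m
      · simp [he]
      -- bound for the earlier terms
      have hb : ∀ i ≤ m, ‖e i‖ ≤ 2 * x ^ i := by
        intro i hi
        have h1 := ih i (by omega) (by omega)
        have h2 : ‖(i.factorial : ℂ) * e i‖ ≤ i * D * x ^ i + x ^ i := by
          calc ‖(i.factorial : ℂ) * e i‖ = ‖((i.factorial : ℂ) * e i - p 1 ^ i) + p 1 ^ i‖ := by ring_nf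
            _ ≤ _ := (norm_add_le _ _).trans (add_le_add h1 (by rw [norm_pow]))
        have h3 : (i : ℝ) * D ≤ 1 := by
          have : (i : ℝ) ≤ k := by exact_mod_cast (by omega : i ≤ k)
          nlinarith
        have h4 : ‖e i‖ ≤ ‖(i.factorial : ℂ) * e i‖ := by
          rw [norm_mul, Complex.norm_natCast]
          have : (1 : ℝ) ≤ i.factorial := by exact_mod_cast Nat.one_le_iff_ne_zero.2 (Nat.factorial_ne_zero i)
          nlinarith [norm_nonneg (e i)]
        have h5 : (0 : ℝ) ≤ x ^ i := by positivity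
        nlinarith
      have h1 := ih m (by omega) (by omega)
      have e1 : ((m + 1).factorial : ℂ) * e (m + 1) - p 1 ^ (m + 1) =
          ((m.factorial : ℂ) * e m - p 1 ^ m) * p 1 +
          (m.factorial : ℂ) * ∑ j ∈ range m, s (j + 1) * e (m - (j + 1)) * p (j + 1 + 1) := by
        rw [Nat.factorial_succ]
        push_cast
        have h6 := hN m
        rw [Finset.sum_range_succ', Nat.sub_zero, hs0] at h6
        linear_combination (m.factorial : ℂ) * h6
      rw [e1]
      have h2 : ‖(m.factorial : ℂ) * ∑ j ∈ range m, s (j + 1) * e (m - (j + 1)) * p (j + 1 + 1)‖ ≤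
          D * x ^ (m + 1) := by
        rw [norm_mul, Complex.norm_natCast]
        have h7 : ‖∑ j ∈ range m, s (j + 1) * e (m - (j + 1)) * p (j + 1 + 1)‖ ≤
            ∑ j ∈ range m, 2 * η ^ 2 * x ^ (m + 1) := by
          refine (norm_sum_le _ _).trans (Finset.sum_le_sum fun j hj => ?_)
          have hj' := Finset.mem_range.1 hj
          rw [norm_mul, norm_mul]
          have a1 : ‖s (j + 1)‖ * ‖e (m - (j + 1))‖ ≤ 1 * (2 * x ^ (m - (j + 1))) :=
            mul_le_mul (hs _) (hb _ (by omega)) (norm_nonneg _) zero_le_one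
          have a2 : ‖p (j + 1 + 1)‖ ≤ η ^ 2 * x ^ (j + 1 + 1) := by
            calc ‖p (j + 1 + 1)‖ ≤ y ^ (j + 1 + 1) := hp _ (by omega) (by omega)
              _ ≤ (η * x) ^ (j + 1 + 1) := pow_le_pow_left₀ hy hyx _
              _ = η ^ (j + 1 + 1) * x ^ (j + 1 + 1) := mul_pow _ _ _
              _ ≤ η ^ 2 * x ^ (j + 1 + 1) := by
                  apply mul_le_mul_of_nonneg_right _ (by positivity)
                  exact pow_le_pow_of_le_one hη.le hη1 (by omega)
          calc ‖s (j + 1)‖ * ‖e (m - (j + 1))‖ * ‖p (j + 1 + 1)‖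
              ≤ (1 * (2 * x ^ (m - (j + 1)))) * (η ^ 2 * x ^ (j + 1 + 1)) :=
                mul_le_mul a1 a2 (norm_nonneg _) (by positivity)
            _ = 2 * η ^ 2 * (x ^ (m - (j + 1)) * x ^ (j + 1 + 1)) := by ring
            _ = 2 * η ^ 2 * x ^ (m + 1) := by
                rw [← pow_add]
                congr 2
                omega
        rw [Finset.sum_const, Finset.card_range, nsmul_eq_mul] at h7
        have a3 : (m.factorial : ℝ) ≤ k.factorial := by
          exact_mod_cast Nat.factorial_le (by omega)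
        have a4 : (m : ℝ) ≤ k := by exact_mod_cast (by omega : m ≤ k)
        calc (m.factorial : ℝ) * ‖∑ j ∈ range m, s (j + 1) * e (m - (j + 1)) * p (j + 1 + 1)‖
            ≤ (m.factorial : ℝ) * (m * (2 * η ^ 2 * x ^ (m + 1))) := by gcongr
          _ ≤ (k.factorial : ℝ) * (k * (2 * η ^ 2 * x ^ (m + 1))) := by gcongr
          _ = D * x ^ (m + 1) := by rw [hD]; ring
      have h3 : ‖((m.factorial : ℂ) * e m - p 1 ^ m) * p 1‖ ≤ m * D * x ^ (m + 1) := by
        rw [norm_mul, ← hx, pow_succ, ← mul_assoc]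
        exact mul_le_mul_of_nonneg_right h1 hx0
      refine (norm_add_le _ _).trans ((add_le_add h3 h2).trans (le_of_eq ?_))
      push_cast; ring
  have h1 := key k le_rfl
  have h2 : x ^ k ≤ ‖(k.factorial : ℂ) * e k‖ + k * D * x ^ k := by
    calc x ^ k = ‖p 1 ^ k‖ := by rw [norm_pow]
      _ = ‖(k.factorial : ℂ) * e k - ((k.factorial : ℂ) * e k - p 1 ^ k)‖ := by ring_nf
      _ ≤ _ := (norm_sub_le _ _).trans (add_le_add le_rfl h1)
  rw [norm_mul, Complex.norm_natCast] at h2
  have h3 : (k : ℝ) * D * x ^ k ≤ 1 / 2 * x ^ k :=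
    mul_le_mul_of_nonneg_right hkD (by positivity)
  linarith

end Abstract

/-! ### Tuples with entries in a finite set -/

open Classical in
/-- the `k`-tuples with entries in `B` that satisfy `P` -/
noncomputable def tup (k : ℕ) (P : (Fin k → ℕ) → Prop) (B : Finset ℕ) : Finset (Fin k → ℕ) :=
  (Fintype.piFinset fun _ : Fin k => B).filter P

lemma mem_tup {k : ℕ} {P : (Fin k → ℕ) → Prop} {B : Finset ℕ} {f : Fin k → ℕ} :
    f ∈ tup k P B ↔ (∀ i, f i ∈ B) ∧ P f := by
  simp only [tup, Finset.mem_filter, Fintype.mem_piFinset]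

/-- the generating function of the tuples -/
noncomputable def Eg (k : ℕ) (P : (Fin k → ℕ) → Prop) (B : Finset ℕ) (z : ℂ) : ℂ :=
  ∑ f ∈ tup k P B, z ^ (∑ i, f i)

/-- power sums -/
noncomputable def ps (B : Finset ℕ) (z : ℂ) (j : ℕ) : ℂ := ∑ a ∈ B, (z ^ a) ^ j

lemma Eg_zero_mono (B : Finset ℕ) (z : ℂ) : Eg 0 Monotone B z = 1 := by
  unfold Eg
  have : tup 0 Monotone B = {Fin.elim0} := by
    ext f
    rw [mem_tup, Finset.mem_singleton]
    exact ⟨fun _ => Subsingleton.elim _ _,
      fun _ => ⟨fun i => i.elim0, fun i => i.elim0⟩⟩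
  rw [this]; simp

lemma Eg_zero_strict (B : Finset ℕ) (z : ℂ) : Eg 0 StrictMono B z = 1 := by
  unfold Eg
  have : tup 0 StrictMono B = {Fin.elim0} := by
    ext f
    rw [mem_tup, Finset.mem_singleton]
    exact ⟨fun _ => Subsingleton.elim _ _,
      fun _ => ⟨fun i => i.elim0, fun i => i.elim0⟩⟩
  rw [this]; simp

lemma Eg_empty (k : ℕ) (P : (Fin (k + 1) → ℕ) → Prop) (z : ℂ) : Eg (k + 1) P ∅ z = 0 := by
  unfold Eg
  have : tup (k + 1) P ∅ = ∅ := by
    ext f
    rw [mem_tup]
    simp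
  rw [this]; simp

lemma sum_snoc {m : ℕ} (g : Fin m → ℕ) (b : ℕ) :
    ∑ i, (Fin.snoc g b : Fin (m + 1) → ℕ) i = ∑ i, g i + b := by
  rw [Fin.sum_univ_castSucc]
  simp

lemma mono_snoc {m : ℕ} {g : Fin m → ℕ} {b : ℕ} (hg : Monotone g) (hb : ∀ i, g i ≤ b) :
    Monotone (Fin.snoc g b : Fin (m + 1) → ℕ) := by
  intro i j hij
  refine Fin.lastCases ?_ (fun j => ?_) j (motive := fun j => i ≤ j →
    (Fin.snoc g b : Fin (m + 1) → ℕ) i ≤ (Fin.snoc g b : Fin (m + 1) → ℕ) j) hij
  · intro _
    rw [Fin.snoc_last]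
    refine Fin.lastCases ?_ (fun i => ?_) i
    · rw [Fin.snoc_last]
    · rw [Fin.snoc_castSucc]; exact hb i
  · intro h
    refine Fin.lastCases ?_ (fun i => ?_) i (motive := fun i => i ≤ j.castSucc →
      (Fin.snoc g b : Fin (m + 1) → ℕ) i ≤ (Fin.snoc g b : Fin (m + 1) → ℕ) j.castSucc) h
    · intro h
      exact absurd h (not_le.2 (Fin.castSucc_lt_last j))
    · intro h
      rw [Fin.snoc_castSucc, Fin.snoc_castSucc]
      exact hg (Fin.castSucc_le_castSucc_iff.1 h)

lemma strict_snoc {m : ℕ} {g : Fin m → ℕ} {b : ℕ} (hg : StrictMono g) (hb : ∀ i, g i < b) :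
    StrictMono (Fin.snoc g b : Fin (m + 1) → ℕ) := by
  intro i j hij
  refine Fin.lastCases ?_ (fun j => ?_) j (motive := fun j => i < j →
    (Fin.snoc g b : Fin (m + 1) → ℕ) i < (Fin.snoc g b : Fin (m + 1) → ℕ) j) hij
  · intro h
    rw [Fin.snoc_last]
    refine Fin.lastCases ?_ (fun i => ?_) i (motive := fun i => i < Fin.last m →
      (Fin.snoc g b : Fin (m + 1) → ℕ) i < b) h
    · intro h; exact absurd h (lt_irrefl _)
    · intro _; rw [Fin.snoc_castSucc]; exact hb i
  · intro h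
    refine Fin.lastCases ?_ (fun i => ?_) i (motive := fun i => i < j.castSucc →
      (Fin.snoc g b : Fin (m + 1) → ℕ) i < (Fin.snoc g b : Fin (m + 1) → ℕ) j.castSucc) h
    · intro h
      exact absurd h (not_lt.2 (Fin.castSucc_lt_last j).le)
    · intro h
      rw [Fin.snoc_castSucc, Fin.snoc_castSucc]
      exact hg (Fin.castSucc_lt_castSucc_iff.1 h)

lemma Eg_mono_succ (m : ℕ) (B : Finset ℕ) (b : ℕ) (hb : ∀ x ∈ B, x < b) (z : ℂ) :
    Eg (m + 1) Monotone (insert b B) z =
      Eg (m + 1) Monotone B z + z ^ b * Eg m Monotone (insert b B) z := by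
  classical
  unfold Eg
  rw [← Finset.sum_filter_add_sum_filter_not (tup (m + 1) Monotone (insert b B))
    (fun f => f (Fin.last m) ≠ b)]
  congr 1
  · refine Finset.sum_congr ?_ fun _ _ => rfl
    ext f
    rw [Finset.mem_filter, mem_tup, mem_tup]
    constructor
    · rintro ⟨⟨h1, h2⟩, h3⟩
      refine ⟨fun i => ?_, h2⟩
      have h4 : f (Fin.last m) ∈ B := (Finset.mem_insert.1 (h1 _)).resolve_left h3
      have h5 : f i ≤ f (Fin.last m) := h2 (Fin.le_last i)
      refine (Finset.mem_insert.1 (h1 i)).resolve_left ?_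
      have := hb _ h4
      omega
    · rintro ⟨h1, h2⟩
      exact ⟨⟨fun i => Finset.mem_insert_of_mem (h1 i), h2⟩, (hb _ (h1 _)).ne⟩
  · rw [Finset.mul_sum]
    refine Finset.sum_nbij' (i := fun f => Fin.init f) (j := fun g => Fin.snoc g b) ?_ ?_ ?_ ?_ ?_
    · intro f hf
      rw [Finset.mem_filter, mem_tup] at hf
      rw [mem_tup]
      exact ⟨fun i => hf.1.1 _, fun i j hij => hf.1.2 (Fin.castSucc_le_castSucc_iff.2 hij)⟩
    · intro g hg
      rw [mem_tup] at hg
      rw [Finset.mem_filter, mem_tup]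
      refine ⟨⟨fun i => ?_, mono_snoc hg.2 fun i => ?_⟩, ?_⟩
      · refine Fin.lastCases ?_ (fun i => ?_) i
        · rw [Fin.snoc_last]; exact Finset.mem_insert_self _ _
        · rw [Fin.snoc_castSucc]; exact hg.1 i
      · rcases Finset.mem_insert.1 (hg.1 i) with h | h
        · exact h.le
        · exact (hb _ h).le
      · rw [not_not, Fin.snoc_last]
    · intro f hf
      rw [Finset.mem_filter, not_not] at hf
      have := Fin.snoc_init_self f
      rw [← hf.2]
      exact this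
    · intro g _
      exact Fin.init_snoc _ _
    · intro f hf
      rw [Finset.mem_filter, not_not] at hf
      rw [← pow_add, Fin.sum_univ_castSucc, hf.2, add_comm]
      rfl

lemma Eg_strict_succ (m : ℕ) (B : Finset ℕ) (b : ℕ) (hb : ∀ x ∈ B, x < b) (z : ℂ) :
    Eg (m + 1) StrictMono (insert b B) z =
      Eg (m + 1) StrictMono B z + z ^ b * Eg m StrictMono B z := by
  classical
  unfold Eg
  rw [← Finset.sum_filter_add_sum_filter_not (tup (m + 1) StrictMono (insert b B))
    (fun f => f (Fin.last m) ≠ b)]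
  congr 1
  · refine Finset.sum_congr ?_ fun _ _ => rfl
    ext f
    rw [Finset.mem_filter, mem_tup, mem_tup]
    constructor
    · rintro ⟨⟨h1, h2⟩, h3⟩
      refine ⟨fun i => ?_, h2⟩
      have h4 : f (Fin.last m) ∈ B := (Finset.mem_insert.1 (h1 _)).resolve_left h3
      have h5 : f i ≤ f (Fin.last m) := h2.monotone (Fin.le_last i)
      refine (Finset.mem_insert.1 (h1 i)).resolve_left ?_
      have := hb _ h4
      omega
    · rintro ⟨h1, h2⟩
      exact ⟨⟨fun i => Finset.mem_insert_of_mem (h1 i), h2⟩, (hb _ (h1 _)).ne⟩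
  · rw [Finset.mul_sum]
    refine Finset.sum_nbij' (i := fun f => Fin.init f) (j := fun g => Fin.snoc g b) ?_ ?_ ?_ ?_ ?_
    · intro f hf
      rw [Finset.mem_filter, mem_tup, not_not] at hf
      rw [mem_tup]
      refine ⟨fun i => ?_, fun i j hij => hf.1.2 (Fin.castSucc_lt_castSucc_iff.2 hij)⟩
      have h5 : f i.castSucc < f (Fin.last m) := hf.1.2 (Fin.castSucc_lt_last i)
      refine (Finset.mem_insert.1 (hf.1.1 i.castSucc)).resolve_left ?_
      rw [hf.2] at h5
      exact h5.ne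
    · intro g hg
      rw [mem_tup] at hg
      rw [Finset.mem_filter, mem_tup]
      refine ⟨⟨fun i => ?_, strict_snoc hg.2 fun i => hb _ (hg.1 i)⟩, ?_⟩
      · refine Fin.lastCases ?_ (fun i => ?_) i
        · rw [Fin.snoc_last]; exact Finset.mem_insert_self _ _
        · rw [Fin.snoc_castSucc]; exact Finset.mem_insert_of_mem (hg.1 i)
      · rw [not_not, Fin.snoc_last]
    · intro f hf
      rw [Finset.mem_filter, not_not] at hf
      have := Fin.snoc_init_self f
      rw [← hf.2]
      exact this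
    · intro g _
      exact Fin.init_snoc _ _
    · intro f hf
      rw [Finset.mem_filter, not_not] at hf
      rw [← pow_add, Fin.sum_univ_castSucc, hf.2, add_comm]
      rfl

lemma ps_insert (B : Finset ℕ) (b : ℕ) (hb : ∀ x ∈ B, x < b) (z : ℂ) (j : ℕ) :
    ps (insert b B) z j = (z ^ b) ^ j + ps B z j := by
  unfold ps
  rw [Finset.sum_insert]
  intro h
  exact lt_irrefl _ (hb _ h)

lemma newton_mono (z : ℂ) (B : Finset ℕ) : ∀ m : ℕ, ((m : ℂ) + 1) * Eg (m + 1) Monotone B z =
    ∑ j ∈ range (m + 1), Eg (m - j) Monotone B z * ps B z (j + 1) := by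
  induction B using Finset.induction_on_max with
  | empty =>
    intro m
    rw [Eg_empty]
    simp [ps]
  | insert b B hb ih =>
    intro m
    have := newton_h_step (fun m => Eg m Monotone B z) (fun m => Eg m Monotone (insert b B) z)
      (fun j => ps B z j) (z ^ b) (Eg_zero_mono _ _) (Eg_zero_mono _ _)
      (fun m => Eg_mono_succ m B b hb z) ih m
    refine this.trans (Finset.sum_congr rfl fun j _ => ?_)
    rw [ps_insert B b hb]

lemma newton_strict (z : ℂ) (B : Finset ℕ) : ∀ m : ℕ, ((m : ℂ) + 1) * Eg (m + 1) StrictMono B z =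
    ∑ j ∈ range (m + 1), (-1) ^ j * Eg (m - j) StrictMono B z * ps B z (j + 1) := by
  induction B using Finset.induction_on_max with
  | empty =>
    intro m
    rw [Eg_empty]
    simp [ps]
  | insert b B hb ih =>
    intro m
    have := newton_e_step (fun m => Eg m StrictMono B z) (fun m => Eg m StrictMono (insert b B) z)
      (fun j => ps B z j) (z ^ b) (Eg_zero_strict _ _) (Eg_zero_strict _ _)
      (fun m => Eg_strict_succ m B b hb z) ih m
    refine this.trans (Finset.sum_congr rfl fun j _ => ?_)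
    rw [ps_insert B b hb]

/-- the basic inequality for `r₁` -/
lemma Eg_true (k : ℕ) (B : Finset ℕ) (z : ℂ) : Eg k (fun _ => True) B z = ps B z 1 ^ k := by
  classical
  unfold Eg ps
  have h0 : tup k (fun _ => True) B = Fintype.piFinset fun _ : Fin k => B := by
    ext f
    rw [mem_tup, Fintype.mem_piFinset]
    simp
  rw [h0]
  have h1 : (∑ a ∈ B, (z ^ a) ^ 1) ^ k = ∏ _i : Fin k, ∑ a ∈ B, z ^ a := by
    simp
  rw [h1, Finset.prod_univ_sum]
  refine Finset.sum_congr rfl fun f _ => ?_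
  rw [Finset.prod_pow_eq_pow_sum]

end Pool.Agent.H510R2.Incr
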