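import Mathlib
import Pool.Agent.H510R2.Incr.Newton
import Pool.Agent.H510R2.Incr.Avg

set_option autoImplicit false

open Finset

namespace Pool.Agent.H510R2.Incr

open Classical in
/-- `A ∩ [0, T]` -/
noncomputable def AT (A : Set ℕ) (T : ℕ) : Finset ℕ := (range (T + 1)).filter (· ∈ A)

lemma mem_AT {A : Set ℕ} {T a : ℕ} : a ∈ AT A T ↔ a ≤ T ∧ a ∈ A := by
  simp only [AT, Finset.mem_filter, Finset.mem_range, Nat.lt_succ_iff]

/-- the representation function attached to `P` -/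
noncomputable def rP (k : ℕ) (P : (Fin k → ℕ) → Prop) (A : Set ℕ) (n : ℕ) : ℕ :=
  Nat.card {f : Fin k → ℕ // (∀ i, f i ∈ A) ∧ ∑ i, f i = n ∧ P f}

noncomputable def rT (k : ℕ) (P : (Fin k → ℕ) → Prop) (B : Finset ℕ) (n : ℕ) : ℕ :=
  ((tup k P B).filter (fun f => ∑ i, f i = n)).card

lemma le_sum {k : ℕ} (f : Fin k → ℕ) (i : Fin k) : f i ≤ ∑ i, f i :=
  Finset.single_le_sum (f := f) (fun _ _ => Nat.zero_le _) (Finset.mem_univ i)

lemma rP_eq (k : ℕ) (P : (Fin k → ℕ) → Prop) (A : Set ℕ) (T n : ℕ) (hn : n ≤ T) :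
    rP k P A n = rT k P (AT A T) n := by
  classical
  unfold rP rT
  rw [Nat.subtype_card]
  intro f
  rw [Finset.mem_filter, mem_tup]
  constructor
  · rintro ⟨⟨h1, h2⟩, h3⟩
    exact ⟨fun i => (mem_AT.1 (h1 i)).2, h3, h2⟩
  · rintro ⟨h1, h2, h3⟩
    refine ⟨⟨fun i => mem_AT.2 ⟨?_, h1 i⟩, h3⟩, h2⟩
    have := le_sum f i
    omega

lemma sum_le_of_mem {k : ℕ} {P : (Fin k → ℕ) → Prop} {B : Finset ℕ} {T : ℕ}
    (hB : ∀ a ∈ B, a ≤ T) {f : Fin k → ℕ} (hf : f ∈ tup k P B) : ∑ i, f i ≤ k * T := by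
  rw [mem_tup] at hf
  calc ∑ i, f i ≤ ∑ _i : Fin k, T := Finset.sum_le_sum fun i _ => hB _ (hf.1 i)
    _ = k * T := by simp

lemma rT_zero (k : ℕ) (P : (Fin k → ℕ) → Prop) (B : Finset ℕ) (T : ℕ) (hB : ∀ a ∈ B, a ≤ T)
    (n : ℕ) (hn : k * T < n) : rT k P B n = 0 := by
  unfold rT
  rw [Finset.card_eq_zero, Finset.filter_eq_empty_iff]
  intro f hf h
  have := sum_le_of_mem hB hf
  omega

lemma rT_le (k : ℕ) (P : (Fin k → ℕ) → Prop) (B : Finset ℕ) (n : ℕ) :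
    rT k P B n ≤ (n + 1) ^ k := by
  classical
  unfold rT
  calc ((tup k P B).filter (fun f => ∑ i, f i = n)).card
      ≤ (Fintype.piFinset fun _ : Fin k => range (n + 1)).card := by
        apply Finset.card_le_card
        intro f hf
        rw [Finset.mem_filter] at hf
        rw [Fintype.mem_piFinset]
        intro i
        have := le_sum f i
        rw [Finset.mem_range]
        omega
    _ = (n + 1) ^ k := by rw [Fintype.card_piFinset]; simp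

/-- grouping the tuples by their sum -/
lemma sum_group {R : Type*} [CommSemiring R] (k : ℕ) (P : (Fin k → ℕ) → Prop) (B : Finset ℕ)
    (T : ℕ) (hB : ∀ a ∈ B, a ≤ T) (z : R) :
    ∑ f ∈ tup k P B, z ^ (∑ i, f i) = ∑ n ∈ range (k * T + 1), (rT k P B n : R) * z ^ n := by
  classical
  have hm : ∀ f ∈ tup k P B, ∑ i, f i ∈ range (k * T + 1) := by
    intro f hf
    have := sum_le_of_mem hB hf
    rw [Finset.mem_range]; omega
  rw [← Finset.sum_fiberwise_of_maps_to hm]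
  refine Finset.sum_congr rfl fun n _ => ?_
  unfold rT
  rw [← nsmul_eq_mul, ← Finset.sum_const]
  refine Finset.sum_congr rfl fun f hf => ?_
  rw [(Finset.mem_filter.1 hf).2]

lemma gen_le (k : ℕ) (P : (Fin k → ℕ) → Prop) (B : Finset ℕ)
    (T : ℕ) (hB : ∀ a ∈ B, a ≤ T) (ρ : ℝ) (hρ : 0 ≤ ρ) :
    ∑ n ∈ range (k * T + 1), (rT k P B n : ℝ) * ρ ^ n ≤ (∑ a ∈ B, ρ ^ a) ^ k := by
  classical
  rw [← sum_group k P B T hB ρ]
  have h1 : (∑ a ∈ B, ρ ^ a) ^ k = ∏ _i : Fin k, ∑ a ∈ B, ρ ^ a := by simp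
  rw [h1, Finset.prod_univ_sum]
  have h2 : tup k P B ⊆ Fintype.piFinset fun _ : Fin k => B := by
    intro f hf
    rw [Fintype.mem_piFinset]
    exact (mem_tup.1 hf).1
  refine (Finset.sum_le_sum_of_subset_of_nonneg h2 fun _ _ _ => by positivity).trans ?_
  refine Finset.sum_le_sum fun f _ => ?_
  rw [Finset.prod_pow_eq_pow_sum]

/-- Abel summation estimate for `(1 - z) ∑ R(n) zⁿ` -/
lemma variation (R : ℕ → ℕ) (L : ℕ) (hL : R L = 0) (z : ℂ) (ρ : ℝ) (hz : ‖z‖ = ρ) :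
    ‖1 - z‖ * ‖∑ n ∈ range L, (R n : ℂ) * z ^ n‖ ≤
      (1 - ρ) * ∑ n ∈ range L, (R n : ℝ) * ρ ^ n +
        2 * ∑ n ∈ range L, ((R n - R (n + 1) : ℕ) : ℝ) * ρ ^ (n + 1) := by
  have hρ0 : 0 ≤ ρ := by rw [← hz]; exact norm_nonneg _
  have gen : ∀ (F : Type) (_ : CommRing F) (x : F),
      (1 - x) * ∑ n ∈ range L, (R n : F) * x ^ n =
      (R 0 : F) + ∑ n ∈ range L, ((R (n + 1) : F) - R n) * x ^ (n + 1) := by
    intro F _ x
    have h1 : ∑ n ∈ range L, (R n : F) * x ^ n =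
        (R 0 : F) + ∑ n ∈ range L, (R (n + 1) : F) * x ^ (n + 1) := by
      have h2 : ∑ n ∈ range (L + 1), (R n : F) * x ^ n = ∑ n ∈ range L, (R n : F) * x ^ n := by
        rw [Finset.sum_range_succ, hL]; simp
      rw [← h2, Finset.sum_range_succ']
      simp [add_comm]
    have h3 : ∑ n ∈ range L, ((R (n + 1) : F) - R n) * x ^ (n + 1) =
        ∑ n ∈ range L, (R (n + 1) : F) * x ^ (n + 1) - x * ∑ n ∈ range L, (R n : F) * x ^ n := by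
      rw [Finset.mul_sum, ← Finset.sum_sub_distrib]
      exact Finset.sum_congr rfl fun n _ => by ring
    rw [h3, sub_mul, one_mul]
    nth_rewrite 1 [h1]
    ring
  rw [← norm_mul, gen ℂ inferInstance z, gen ℝ inferInstance ρ]
  refine (norm_add_le _ _).trans ?_
  rw [add_assoc, Complex.norm_natCast]
  refine add_le_add le_rfl ?_
  rw [Finset.mul_sum, ← Finset.sum_add_distrib]
  refine (norm_sum_le _ _).trans (Finset.sum_le_sum fun n _ => ?_)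
  rw [norm_mul, norm_pow, hz, ← mul_assoc, ← add_mul]
  apply mul_le_mul_of_nonneg_right _ (by positivity)
  have h5 : ((R (n + 1) : ℂ) - R n) = (((R (n + 1) : ℝ) - R n : ℝ) : ℂ) := by push_cast; rfl
  rw [h5, Complex.norm_real, Real.norm_eq_abs]
  rcases le_total (R n) (R (n + 1)) with h | h
  · have h' : (R n : ℝ) ≤ R (n + 1) := by exact_mod_cast h
    rw [Nat.sub_eq_zero_of_le h, abs_of_nonneg (by linarith)]
    simp
  · have h' : (R (n + 1) : ℝ) ≤ R n := by exact_mod_cast h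
    rw [abs_of_nonpos (by linarith), Nat.cast_sub h]
    linarith

lemma neg_part (R : ℕ → ℕ) (L n₀ T : ℕ) (hn₀ : n₀ ≤ T) (hTL : T ≤ L)
    (hmono : ∀ n, n₀ ≤ n → n + 1 ≤ T → R n ≤ R (n + 1))
    (ρ : ℝ) (hρ0 : 0 ≤ ρ) (hρ1 : ρ ≤ 1) :
    ∑ n ∈ range L, ((R n - R (n + 1) : ℕ) : ℝ) * ρ ^ (n + 1) ≤
      ∑ n ∈ range n₀, (R n : ℝ) + ∑ n ∈ Ico T L, (R n : ℝ) * ρ ^ n := by
  have hsplit : range L = range n₀ ∪ (Ico n₀ T ∪ Ico T L) := by
    ext n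
    simp only [Finset.mem_range, Finset.mem_union, Finset.mem_Ico]
    omega
  have hd1 : Disjoint (range n₀) (Ico n₀ T ∪ Ico T L) := by
    rw [Finset.disjoint_left]
    intro n hn hn'
    simp only [Finset.mem_range, Finset.mem_union, Finset.mem_Ico] at hn hn'
    omega
  have hd2 : Disjoint (Ico n₀ T) (Ico T L) := by
    rw [Finset.disjoint_left]
    intro n hn hn'
    simp only [Finset.mem_Ico] at hn hn'
    omega
  rw [hsplit, Finset.sum_union hd1, Finset.sum_union hd2]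
  have h1 : ∑ n ∈ range n₀, ((R n - R (n + 1) : ℕ) : ℝ) * ρ ^ (n + 1) ≤ ∑ n ∈ range n₀, (R n : ℝ) := by
    refine Finset.sum_le_sum fun n _ => ?_
    have h2 : ((R n - R (n + 1) : ℕ) : ℝ) ≤ R n := by exact_mod_cast Nat.sub_le _ _
    have h3 : ρ ^ (n + 1) ≤ 1 := pow_le_one₀ hρ0 hρ1
    have h4 : (0 : ℝ) ≤ ((R n - R (n + 1) : ℕ) : ℝ) := Nat.cast_nonneg _
    have h5 : 0 ≤ ρ ^ (n + 1) := by positivity
    nlinarith
  have h2 : ∑ n ∈ Ico n₀ T, ((R n - R (n + 1) : ℕ) : ℝ) * ρ ^ (n + 1) = 0 := by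
    refine Finset.sum_eq_zero fun n hn => ?_
    rw [Finset.mem_Ico] at hn
    rw [Nat.sub_eq_zero_of_le (hmono n hn.1 (by omega))]
    simp
  have h3 : ∑ n ∈ Ico T L, ((R n - R (n + 1) : ℕ) : ℝ) * ρ ^ (n + 1) ≤
      ∑ n ∈ Ico T L, (R n : ℝ) * ρ ^ n := by
    refine Finset.sum_le_sum fun n _ => ?_
    have h2 : ((R n - R (n + 1) : ℕ) : ℝ) ≤ R n := by exact_mod_cast Nat.sub_le _ _
    have h3 : ρ ^ (n + 1) ≤ ρ ^ n := pow_le_pow_of_le_one hρ0 hρ1 (by omega)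
    exact mul_le_mul h2 h3 (by positivity) (Nat.cast_nonneg _)
  linarith

/-- tails of `∑ (n+1)^k ρ^n` are small -/
lemma tail_small (k : ℕ) (ρ : ℝ) (hρ0 : 0 ≤ ρ) (hρ1 : ρ < 1) :
    ∃ T₁ : ℕ, ∀ T ≥ T₁, ∀ L, ∑ n ∈ Ico T L, ((n : ℝ) + 1) ^ k * ρ ^ n ≤ 1 := by
  have hs : Summable (fun n : ℕ => ((n : ℝ) + 1) ^ k * ρ ^ n) := by
    rcases eq_or_lt_of_le hρ0 with h | h
    · rw [← h]
      refine summable_of_ne_finset_zero (s := {0}) fun n hn => ?_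
      rw [Finset.mem_singleton] at hn
      rw [zero_pow hn, mul_zero]
    · have h1 := summable_pow_mul_geometric_of_norm_lt_one (R := ℝ) k (r := ρ)
        (by rw [Real.norm_of_nonneg hρ0]; exact hρ1)
      have h2 := (summable_nat_add_iff 1).2 h1
      have h3 := h2.mul_right (ρ⁻¹)
      refine h3.congr fun n => ?_
      push_cast
      rw [pow_succ]
      field_simp
  have h2 := hs.hasSum.tendsto_sum_nat
  have h3 := h2.eventually (lt_mem_nhds (sub_one_lt (∑' n : ℕ, ((n : ℝ) + 1) ^ k * ρ ^ n)))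
  obtain ⟨T₁, hT₁⟩ := Filter.eventually_atTop.1 h3
  refine ⟨T₁, fun T hT L => ?_⟩
  rcases le_total L T with h | h
  · rw [Finset.Ico_eq_empty (by omega)]; simp
  · rw [Finset.sum_Ico_eq_sub _ h]
    have h4 := hT₁ T hT
    have h5 : ∑ n ∈ range L, ((n : ℝ) + 1) ^ k * ρ ^ n ≤ ∑' n : ℕ, ((n : ℝ) + 1) ^ k * ρ ^ n :=
      hs.sum_le_tsum _ fun n _ => by positivity
    linarith

/-- The pointwise hypothesis. -/
def PB (k : ℕ) (P : (Fin k → ℕ) → Prop) (K₀ : ℝ) : Prop :=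
  ∀ (B : Finset ℕ) (z : ℂ), ‖ps B z 1‖ ^ 2 ≤
    K₀ * (1 + ∑ j ∈ Icc 2 k, ‖ps B z j‖) + K₀ * ‖Eg k P B z‖ ^ (2 / (k : ℝ))

lemma alg_final (Q q K₀ k g D Cs W C₅ : ℝ) (hq : q ^ 2 = Q) (hK₀ : 0 < K₀) (hk : 0 < k)
    (hD : 1 ≤ D) (hCs : 0 < Cs) (hW : 0 ≤ W) (hC₅ : 0 ≤ C₅)
    (h9 : Q ≤ K₀ * (1 + k * q) + K₀ * (g * D * Cs)) (h12 : g ≤ W + C₅) :
    Q ≤ (2 * K₀ + K₀ ^ 2 * k ^ 2 + 2 * K₀ * Cs * C₅ + 2 * K₀ * Cs) * (D + W * D) := by
  have h10 : K₀ * (k * q) ≤ Q / 2 + K₀ ^ 2 * k ^ 2 / 2 := by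
    have := sq_nonneg (q - K₀ * k)
    have e : (q - K₀ * k) ^ 2 = q ^ 2 - 2 * (K₀ * (k * q)) + K₀ ^ 2 * k ^ 2 := by ring
    rw [e, hq] at this
    linarith
  have h11 : Q ≤ 2 * K₀ + K₀ ^ 2 * k ^ 2 + 2 * K₀ * (g * D * Cs) := by
    have e : K₀ * (1 + k * q) = K₀ + K₀ * (k * q) := by ring
    rw [e] at h9
    linarith
  have a1 : 2 * K₀ ≤ 2 * K₀ * D := le_mul_of_one_le_right (by positivity) hD
  have a2 : K₀ ^ 2 * k ^ 2 ≤ K₀ ^ 2 * k ^ 2 * D := le_mul_of_one_le_right (by positivity) hD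
  have hD0 : 0 < D := by linarith
  have a3 : 2 * K₀ * (g * D * Cs) ≤ 2 * K₀ * ((W + C₅) * D * Cs) := by gcongr
  have b1 : 0 ≤ (2 * K₀ + K₀ ^ 2 * k ^ 2 + 2 * K₀ * Cs * C₅) * (W * D) := by positivity
  have b2 : 0 ≤ 2 * K₀ * Cs * D := by positivity
  have e : (2 * K₀ + K₀ ^ 2 * k ^ 2 + 2 * K₀ * Cs * C₅ + 2 * K₀ * Cs) * (D + W * D) =
    2 * K₀ * D + K₀ ^ 2 * k ^ 2 * D + 2 * K₀ * ((W + C₅) * D * Cs) +
    ((2 * K₀ + K₀ ^ 2 * k ^ 2 + 2 * K₀ * Cs * C₅) * (W * D) + 2 * K₀ * Cs * D) := by ring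
  rw [e]
  linarith

/-- The main inequality. -/
lemma main_ineq (k : ℕ) (hk : 2 ≤ k) (P : (Fin k → ℕ) → Prop) (K₀ : ℝ) (hK₀ : 0 < K₀)
    (hPB : PB k P K₀) (A : Set ℕ) (n₀ : ℕ)
    (hmono : ∀ n ≥ n₀, rP k P A n ≤ rP k P A (n + 1))
    (δ : ℝ) (hδ : 0 < δ) (hδ2 : δ < 2 / (k : ℝ)) :
    ∃ K : ℝ, 0 < K ∧ ∀ N : ℝ, 2 ≤ N → ∃ T₁ : ℕ, ∀ T ≥ T₁,
      ∑ a ∈ AT A T, ((1 - 1 / N) ^ 2) ^ a ≤
        K * (N ^ δ + N ^ (δ - 2 / (k : ℝ)) * (∑ a ∈ AT A T, (1 - 1 / N) ^ a) ^ 2) := by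
  have hkR : (2 : ℝ) ≤ k := by exact_mod_cast hk
  have hk0 : (0 : ℝ) < k := by linarith
  set s : ℝ := 2 / (k : ℝ) - δ with hs
  have hs0 : 0 < s := by linarith
  have h2k1 : 2 / (k : ℝ) ≤ 1 := by rw [div_le_one hk0]; exact hkR
  have h2k0 : 0 < 2 / (k : ℝ) := by positivity
  have hs1 : s < 1 := by linarith
  have h1s : 0 < 1 - s := by linarith
  set C₀ : ℝ := ∑ n ∈ range n₀, (rP k P A n : ℝ) with hC₀
  have hC₀' : 0 ≤ C₀ := Finset.sum_nonneg fun _ _ => Nat.cast_nonneg _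
  set Cs : ℝ := 1 + 2 / (1 - s) with hCs
  have hCs0 : 0 < Cs := by positivity
  set C₅ : ℝ := (2 * C₀ + 2) ^ (2 / (k : ℝ)) with hC₅
  have hC₅0 : 0 ≤ C₅ := by positivity
  refine ⟨2 * K₀ + K₀ ^ 2 * k ^ 2 + 2 * K₀ * Cs * C₅ + 2 * K₀ * Cs, by positivity, ?_⟩
  intro N hN
  have hNpos : 0 < N := by linarith
  set ρ : ℝ := 1 - 1 / N with hρ
  have hinvN : 1 / N ≤ 1 / 2 := by
    apply one_div_le_one_div_of_le <;> linarith
  have hinvN0 : 0 < 1 / N := by positivity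
  have hρh : 1 / 2 ≤ ρ := by rw [hρ]; linarith
  have hρ1 : ρ < 1 := by rw [hρ]; linarith
  have hρ0 : 0 ≤ ρ := by linarith
  obtain ⟨T₁, hT₁⟩ := tail_small k ρ hρ0 hρ1
  refine ⟨max T₁ n₀, fun T hT => ?_⟩
  have hTT₁ : T₁ ≤ T := (le_max_left _ _).trans hT
  have hTn₀ : n₀ ≤ T := (le_max_right _ _).trans hT
  set B := AT A T with hB
  have hBT : ∀ a ∈ B, a ≤ T := fun a ha => (mem_AT.1 ha).1
  set L := k * T + 1 with hL
  have hTL : T ≤ L := by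
    rw [hL]; nlinarith
  set S : ℝ := ∑ a ∈ B, ρ ^ a with hS
  have hS0 : 0 ≤ S := Finset.sum_nonneg fun _ _ => by positivity
  set Q : ℝ := ∑ a ∈ B, (ρ ^ 2) ^ a with hQ
  have hQ0 : 0 ≤ Q := Finset.sum_nonneg fun _ _ => by positivity
  set G : ℝ := (1 - ρ) * S ^ k + 2 * C₀ + 2 with hG
  have h1ρ : 0 < 1 - ρ := by linarith
  have hG0 : 0 ≤ G := by positivity
  -- bound for the generating function
  have hE : ∀ z : ℂ, ‖z‖ = ρ → ‖1 - z‖ * ‖Eg k P B z‖ ≤ G := by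
    intro z hz
    have h1 : Eg k P B z = ∑ n ∈ range L, (rT k P B n : ℂ) * z ^ n := sum_group k P B T hBT z
    rw [h1]
    refine (variation (rT k P B) L (rT_zero k P B T hBT L (by omega)) z ρ hz).trans ?_
    have h2 := gen_le k P B T hBT ρ hρ0
    have h3 := neg_part (rT k P B) L n₀ T hTn₀ hTL (by
      intro n hn hnT
      rw [← rP_eq k P A T n (by omega), ← rP_eq k P A T (n + 1) hnT]
      exact hmono n hn) ρ hρ0 hρ1.le
    have h4 : ∑ n ∈ range n₀, (rT k P B n : ℝ) = C₀ := by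
      rw [hC₀]
      refine Finset.sum_congr rfl fun n hn => ?_
      rw [rP_eq k P A T n (by have := Finset.mem_range.1 hn; omega)]
    have h5 : ∑ n ∈ Ico T L, (rT k P B n : ℝ) * ρ ^ n ≤ 1 := by
      refine le_trans (Finset.sum_le_sum fun n _ => ?_) (hT₁ T hTT₁ L)
      apply mul_le_mul_of_nonneg_right _ (by positivity)
      exact_mod_cast rT_le k P B n
    rw [h4] at h3
    have h6 : (1 - ρ) * ∑ n ∈ range L, (rT k P B n : ℝ) * ρ ^ n ≤ (1 - ρ) * S ^ k :=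
      mul_le_mul_of_nonneg_left h2 h1ρ.le
    rw [hG]
    linarith
  -- the modulus
  obtain ⟨N', hN'⟩ := exists_nat_ge N
  set M : ℕ := k.factorial * (T + N') + 1 with hM
  have hMpos : 0 < M := Nat.succ_pos _
  have hMR : (0 : ℝ) < M := by exact_mod_cast hMpos
  have hMT : T < M := by
    have := Nat.factorial_pos k
    rw [hM]; nlinarith
  have hMN : 1 ≤ M * (1 - ρ) := by
    have h1 : N' ≤ M := by
      have := Nat.factorial_pos k
      rw [hM]; nlinarith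
    have h2 : N ≤ M := hN'.trans (by exact_mod_cast h1)
    rw [hρ, sub_sub_cancel, mul_one_div, le_div_iff₀ hNpos]
    linarith
  have hcop : ∀ j, 1 ≤ j → j ≤ k → Nat.Coprime j M := by
    intro j hj1 hjk
    have h1 : j ∣ k.factorial * (T + N') := (Nat.dvd_factorial hj1 hjk).mul_right _
    rw [hM]
    obtain ⟨c, hc⟩ := h1
    rw [hc, Nat.coprime_mul_left_add_right]
    exact Nat.coprime_one_right j
  have hpars : ∀ j, 1 ≤ j → j ≤ k →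
      ∑ i ∈ range M, ‖ps B ((ρ : ℂ) * (zt M) ^ i) j‖ ^ 2 = M * ∑ a ∈ B, (ρ ^ (a * j)) ^ 2 := by
    intro j hj1 hjk
    rw [← parseval M hMpos B (fun a => a * j) ?_ (fun a => ρ ^ (a * j))]
    · refine Finset.sum_congr rfl fun i _ => ?_
      congr 2
      unfold ps
      refine Finset.sum_congr rfl fun a _ => ?_
      push_cast
      rw [← pow_mul, mul_pow]
    · intro a ha b hb hab
      have h1 : a ≡ b [MOD M] := Nat.ModEq.cancel_right_of_coprime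
        (by rw [Nat.gcd_comm]; exact hcop j hj1 hjk) hab
      exact Nat.ModEq.eq_of_lt_of_lt h1 (lt_of_le_of_lt (hBT a ha) hMT)
        (lt_of_le_of_lt (hBT b hb) hMT)
  have hQj : ∀ j, 1 ≤ j → ∑ a ∈ B, (ρ ^ (a * j)) ^ 2 ≤ Q := by
    intro j hj
    rw [hQ]
    refine Finset.sum_le_sum fun a _ => ?_
    rw [← pow_mul, ← pow_mul]
    apply pow_le_pow_of_le_one hρ0 hρ1.le
    nlinarith
  have hQ1 : ∑ i ∈ range M, ‖ps B ((ρ : ℂ) * (zt M) ^ i) 1‖ ^ 2 = M * Q := by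
    rw [hpars 1 le_rfl (by omega), hQ]
    congr 1
    refine Finset.sum_congr rfl fun a _ => ?_
    rw [mul_one, ← pow_mul, ← pow_mul, mul_comm]
  have hL1 : ∀ j ∈ Icc 2 k, ∑ i ∈ range M, ‖ps B ((ρ : ℂ) * (zt M) ^ i) j‖ ≤ M * Real.sqrt Q := by
    intro j hj
    rw [Finset.mem_Icc] at hj
    have h1 : (∑ i ∈ range M, ‖ps B ((ρ : ℂ) * (zt M) ^ i) j‖) ^ 2 ≤ (M * Real.sqrt Q) ^ 2 := by
      have h2 := sq_sum_le_card_mul_sum_sq (s := range M)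
        (f := fun i => ‖ps B ((ρ : ℂ) * (zt M) ^ i) j‖)
      rw [Finset.card_range, hpars j (by omega) hj.2] at h2
      refine h2.trans ?_
      rw [mul_pow, Real.sq_sqrt hQ0, sq, mul_assoc]
      have := hQj j (by omega)
      gcongr
    have h3 : 0 ≤ ∑ i ∈ range M, ‖ps B ((ρ : ℂ) * (zt M) ^ i) j‖ :=
      Finset.sum_nonneg fun _ _ => norm_nonneg _
    exact (sq_le_sq₀ h3 (by positivity)).1 h1
  -- the averaged generating function
  have hAvgE : ∑ i ∈ range M, ‖Eg k P B ((ρ : ℂ) * (zt M) ^ i)‖ ^ (2 / (k : ℝ)) ≤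
      G ^ (2 / (k : ℝ)) * N ^ δ * (M * Cs) := by
    have h1 : ∀ i ∈ range M, ‖Eg k P B ((ρ : ℂ) * (zt M) ^ i)‖ ^ (2 / (k : ℝ)) ≤
        (G ^ (2 / (k : ℝ)) * N ^ δ) * ‖1 - (ρ : ℂ) * (zt M) ^ i‖ ^ (-s) := by
      intro i _
      have hz : ‖(ρ : ℂ) * (zt M) ^ i‖ = ρ := by
        rw [norm_mul, norm_pow, zt_norm, one_pow, mul_one, Complex.norm_real,
          Real.norm_of_nonneg hρ0]
      have h2 := hE _ hz
      have h3 : 1 / N ≤ ‖1 - (ρ : ℂ) * (zt M) ^ i‖ := by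
        have h4 := norm_sub_norm_le (1 : ℂ) ((ρ : ℂ) * (zt M) ^ i)
        rw [hz, norm_one] at h4
        rw [hρ] at h4
        rw [hρ]
        linarith
      set D := ‖1 - (ρ : ℂ) * (zt M) ^ i‖ with hD
      have hD0 : 0 < D := lt_of_lt_of_le hinvN0 h3
      have h5 : ‖Eg k P B ((ρ : ℂ) * (zt M) ^ i)‖ ≤ G / D := by
        rw [le_div_iff₀ hD0]; linarith
      calc ‖Eg k P B ((ρ : ℂ) * (zt M) ^ i)‖ ^ (2 / (k : ℝ)) ≤ (G / D) ^ (2 / (k : ℝ)) :=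
            Real.rpow_le_rpow (norm_nonneg _) h5 h2k0.le
        _ = G ^ (2 / (k : ℝ)) * (D ^ (-δ) * D ^ (-s)) := by
            rw [Real.div_rpow hG0 hD0.le, ← Real.rpow_add hD0, div_eq_mul_inv, ← Real.rpow_neg hD0.le]
            congr 2
            rw [hs]; ring
        _ ≤ G ^ (2 / (k : ℝ)) * (N ^ δ * D ^ (-s)) := by
            gcongr
            have h6 : D ^ (-δ) ≤ (1 / N) ^ (-δ) :=
              Real.rpow_le_rpow_of_nonpos hinvN0 h3 (by linarith)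
            rwa [one_div, Real.inv_rpow hNpos.le, Real.rpow_neg hNpos.le, inv_inv] at h6
        _ = _ := by ring
    refine (Finset.sum_le_sum h1).trans ?_
    rw [← Finset.mul_sum]
    exact mul_le_mul_of_nonneg_left (avg_bound s hs0 hs1 M ρ hρh hρ1 hMN) (by positivity)
  -- sum the pointwise bound
  have hsum := Finset.sum_le_sum fun i (_ : i ∈ range M) => hPB B ((ρ : ℂ) * (zt M) ^ i)
  rw [hQ1, Finset.sum_add_distrib, ← Finset.mul_sum, ← Finset.mul_sum, Finset.sum_add_distrib,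
    Finset.sum_const, Finset.card_range, nsmul_eq_mul, mul_one, Finset.sum_comm] at hsum
  have h7 : ∑ j ∈ Icc 2 k, ∑ i ∈ range M, ‖ps B ((ρ : ℂ) * (zt M) ^ i) j‖ ≤
      k * (M * Real.sqrt Q) := by
    refine (Finset.sum_le_sum hL1).trans ?_
    rw [Finset.sum_const, nsmul_eq_mul]
    apply mul_le_mul_of_nonneg_right _ (by positivity)
    rw [Nat.card_Icc]
    exact_mod_cast (by omega : k + 1 - 2 ≤ k)
  have h8 : M * Q ≤ M * (K₀ * (1 + k * Real.sqrt Q) + K₀ * (G ^ (2 / (k : ℝ)) * N ^ δ * Cs)) := by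
    calc M * Q ≤ K₀ * (M + ∑ j ∈ Icc 2 k, ∑ i ∈ range M, ‖ps B ((ρ : ℂ) * (zt M) ^ i) j‖) +
          K₀ * ∑ i ∈ range M, ‖Eg k P B ((ρ : ℂ) * (zt M) ^ i)‖ ^ (2 / (k : ℝ)) := hsum
      _ ≤ K₀ * (M + k * (M * Real.sqrt Q)) + K₀ * (G ^ (2 / (k : ℝ)) * N ^ δ * (M * Cs)) := by
          gcongr
      _ = _ := by ring
  have h9 : Q ≤ K₀ * (1 + k * Real.sqrt Q) + K₀ * (G ^ (2 / (k : ℝ)) * N ^ δ * Cs) :=
    le_of_mul_le_mul_left h8 hMR
  have h12 : G ^ (2 / (k : ℝ)) ≤ N ^ (-(2 / (k : ℝ))) * S ^ 2 + C₅ := by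
    have h13 : G ^ (2 / (k : ℝ)) ≤ ((1 - ρ) * S ^ k) ^ (2 / (k : ℝ)) + (2 * C₀ + 2) ^ (2 / (k : ℝ)) := by
      rw [hG, add_assoc]
      exact Real.rpow_add_le_add_rpow (by positivity) (by positivity) h2k0.le h2k1
    have h14 : ((1 - ρ) * S ^ k) ^ (2 / (k : ℝ)) = N ^ (-(2 / (k : ℝ))) * S ^ 2 := by
      rw [Real.mul_rpow h1ρ.le (by positivity)]
      congr 1
      · rw [hρ, sub_sub_cancel, one_div, Real.inv_rpow hNpos.le, Real.rpow_neg hNpos.le]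
      · rw [← Real.rpow_natCast, ← Real.rpow_mul hS0]
        have : (k : ℝ) * (2 / (k : ℝ)) = 2 := by field_simp
        rw [this]
        norm_cast
    rw [h14] at h13
    exact h13
  have hNδ : 1 ≤ N ^ δ := Real.one_le_rpow (by linarith) hδ.le
  have h15 : N ^ (δ - 2 / (k : ℝ)) = N ^ (-(2 / (k : ℝ))) * N ^ δ := by
    rw [← Real.rpow_add hNpos]; congr 1; ring
  set W := N ^ (-(2 / (k : ℝ))) * S ^ 2 with hW
  have hW0 : 0 ≤ W := by positivity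
  have h16 : N ^ (δ - 2 / (k : ℝ)) * S ^ 2 = W * N ^ δ := by rw [h15, hW]; ring
  have h16' : N ^ (δ - 2 / (k : ℝ)) * (∑ a ∈ B, ρ ^ a) ^ 2 = W * N ^ δ := h16
  rw [h16']
  exact alg_final Q (Real.sqrt Q) K₀ k (G ^ (2 / (k : ℝ))) (N ^ δ) Cs W C₅ (Real.sq_sqrt hQ0)
    hK₀ hk0 hNδ hCs0 hW0 hC₅0 h9 h12

end Pool.Agent.H510R2.Incr
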