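import Mathlib
import Pool.Agent.H510R2.Incr.Main

set_option autoImplicit false

open Finset

namespace Pool.Agent.H510R2.Incr

lemma PB_true (k : ℕ) (hk : 2 ≤ k) : PB k (fun _ => True) 1 := by
  intro B z
  have hk0 : (0 : ℝ) < k := by
    have : 0 < k := by omega
    exact_mod_cast this
  rw [Eg_true, norm_pow, ← Real.rpow_natCast _ k, ← Real.rpow_mul (norm_nonneg _)]
  have h1 : (k : ℝ) * (2 / k) = 2 := by field_simp
  have h2 : 0 ≤ ∑ j ∈ Icc 2 k, ‖ps B z j‖ := Finset.sum_nonneg fun _ _ => norm_nonneg _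
  rw [h1]
  have h3 : ‖ps B z 1‖ ^ (2 : ℝ) = ‖ps B z 1‖ ^ 2 := by norm_cast
  rw [h3]
  linarith

lemma PB_gen (k : ℕ) (hk : 2 ≤ k) (P : (m : ℕ) → (Fin m → ℕ) → Prop) (s : ℕ → ℂ) (hs0 : s 0 = 1)
    (hs : ∀ j, ‖s j‖ ≤ 1) (h0 : ∀ B z, Eg 0 (P 0) B z = 1)
    (hN : ∀ (B : Finset ℕ) (z : ℂ) (m : ℕ), ((m : ℂ) + 1) * Eg (m + 1) (P (m + 1)) B z =
      ∑ j ∈ range (m + 1), s j * Eg (m - j) (P (m - j)) B z * ps B z (j + 1)) :
    ∃ K₀ : ℝ, 0 < K₀ ∧ PB k (P k) K₀ := by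
  have hkR : (2 : ℝ) ≤ k := by exact_mod_cast hk
  have hk0 : (0 : ℝ) < k := by linarith
  have hf1 : (1 : ℝ) ≤ k.factorial := by
    exact_mod_cast Nat.one_le_iff_ne_zero.2 (Nat.factorial_ne_zero k)
  set η : ℝ := 1 / (2 * k * k.factorial) with hη
  have hη0 : 0 < η := by positivity
  have hη1 : η ≤ 1 := by
    rw [hη, div_le_one (by positivity)]
    nlinarith
  have hη2 : 4 * (k : ℝ) ^ 2 * (k.factorial : ℝ) * η ^ 2 ≤ 1 := by
    have : 4 * (k : ℝ) ^ 2 * (k.factorial : ℝ) * η ^ 2 = 1 / k.factorial := by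
      rw [hη]; field_simp; norm_num
    rw [this, div_le_one (by positivity)]
    exact hf1
  refine ⟨1 / η ^ 2 + 2 * k.factorial, by positivity, ?_⟩
  intro B z
  set Y : ℝ := 1 + ∑ j ∈ Icc 2 k, ‖ps B z j‖ with hY
  have hY1 : 1 ≤ Y := by
    have : 0 ≤ ∑ j ∈ Icc 2 k, ‖ps B z j‖ := Finset.sum_nonneg fun _ _ => norm_nonneg _
    linarith
  have hY0 : 0 ≤ Y := by linarith
  set y := Real.sqrt Y with hy
  have hy1 : 1 ≤ y := by
    rw [hy]
    exact Real.one_le_sqrt.2 hY1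
  have hysq : y ^ 2 = Y := Real.sq_sqrt hY0
  have hE0 : 0 ≤ ‖Eg k (P k) B z‖ ^ (2 / (k : ℝ)) := by positivity
  rcases le_total y (η * ‖ps B z 1‖) with h | h
  · have h1 := newton_lower k (by omega) (fun m => Eg m (P m) B z) (fun j => ps B z j) s
      (h0 B z) hs0 hs (hN B z) y η (by linarith) hη0 hη1 hη2 (by
        intro j hj2 hjk
        have h2 : ‖ps B z j‖ ≤ ∑ j ∈ Icc 2 k, ‖ps B z j‖ :=
          Finset.single_le_sum (f := fun j => ‖ps B z j‖) (fun _ _ => norm_nonneg _)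
            (Finset.mem_Icc.2 ⟨hj2, hjk⟩)
        have h3 : Y ≤ y ^ j := by
          rw [← hysq]
          exact pow_le_pow_right₀ hy1 hj2
        show ‖ps B z j‖ ≤ y ^ j
        linarith) h
    have h2 : ‖ps B z 1‖ ^ 2 = (‖ps B z 1‖ ^ k) ^ (2 / (k : ℝ)) := by
      rw [← Real.rpow_natCast _ k, ← Real.rpow_mul (norm_nonneg _)]
      have : (k : ℝ) * (2 / k) = 2 := by field_simp
      rw [this]; norm_cast
    have h3 : (‖ps B z 1‖ ^ k) ^ (2 / (k : ℝ)) ≤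
        (2 * (k.factorial : ℝ) * ‖Eg k (P k) B z‖) ^ (2 / (k : ℝ)) :=
      Real.rpow_le_rpow (by positivity) h1 (by positivity)
    have h4 : (2 * (k.factorial : ℝ)) ^ (2 / (k : ℝ)) ≤ 2 * (k.factorial : ℝ) := by
      have : (2 * (k.factorial : ℝ)) ^ (2 / (k : ℝ)) ≤ (2 * (k.factorial : ℝ)) ^ (1 : ℝ) := by
        apply Real.rpow_le_rpow_of_exponent_le (by linarith)
        rw [div_le_one hk0]; exact hkR
      rwa [Real.rpow_one] at this
    rw [Real.mul_rpow (by positivity) (norm_nonneg _)] at h3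
    have h5 : 0 ≤ 1 / η ^ 2 := by positivity
    have h6 : 0 ≤ 2 * (k.factorial : ℝ) := by positivity
    calc ‖ps B z 1‖ ^ 2 ≤ (2 * (k.factorial : ℝ)) ^ (2 / (k : ℝ)) *
          ‖Eg k (P k) B z‖ ^ (2 / (k : ℝ)) := by rw [h2]; exact h3
      _ ≤ (2 * (k.factorial : ℝ)) * ‖Eg k (P k) B z‖ ^ (2 / (k : ℝ)) :=
          mul_le_mul_of_nonneg_right h4 hE0
      _ ≤ _ := by
          have h7 : 0 ≤ (1 / η ^ 2 + 2 * k.factorial) * Y := by positivity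
          have h8 : 0 ≤ 1 / η ^ 2 * ‖Eg k (P k) B z‖ ^ (2 / (k : ℝ)) := by positivity
          nlinarith
  · have h1 : ‖ps B z 1‖ ≤ y / η := by
      rw [le_div_iff₀ hη0]; linarith
    have h2 : ‖ps B z 1‖ ^ 2 ≤ Y / η ^ 2 := by
      calc ‖ps B z 1‖ ^ 2 ≤ (y / η) ^ 2 := pow_le_pow_left₀ (norm_nonneg _) h1 2
        _ = Y / η ^ 2 := by rw [div_pow, hysq]
    have h6 : 0 ≤ 2 * (k.factorial : ℝ) * Y := by positivity
    have h7 : 0 ≤ (1 / η ^ 2 + 2 * k.factorial) * ‖Eg k (P k) B z‖ ^ (2 / (k : ℝ)) := by positivity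
    have h8 : Y / η ^ 2 = 1 / η ^ 2 * Y := by ring
    nlinarith

lemma PB_mono (k : ℕ) (hk : 2 ≤ k) : ∃ K₀ : ℝ, 0 < K₀ ∧ PB k Monotone K₀ :=
  PB_gen k hk (fun _ f => Monotone f) (fun _ => 1) rfl (fun _ => by simp) Eg_zero_mono
    (fun B z m => by
      rw [newton_mono z B m]
      exact Finset.sum_congr rfl fun j _ => by rw [one_mul])

lemma PB_strict (k : ℕ) (hk : 2 ≤ k) : ∃ K₀ : ℝ, 0 < K₀ ∧ PB k StrictMono K₀ :=
  PB_gen k hk (fun _ f => StrictMono f) (fun j => (-1) ^ j) (pow_zero _) (fun _ => by simp)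
    Eg_zero_strict (fun B z m => newton_strict z B m)

/-! ### Size of the generating function at real points -/

lemma AT_succ (A : Set ℕ) (T : ℕ) (ρ : ℝ) :
    ∑ a ∈ AT A (T + 1), ρ ^ a =
      ∑ a ∈ AT A T, ρ ^ a + (((AT A (T + 1)).card : ℝ) - (AT A T).card) * ρ ^ (T + 1) := by
  classical
  by_cases h : T + 1 ∈ A
  · have h1 : AT A (T + 1) = insert (T + 1) (AT A T) := by
      ext a
      rw [Finset.mem_insert, mem_AT, mem_AT]
      constructor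
      · rintro ⟨h1, h2⟩
        rcases Nat.lt_or_ge T a with h3 | h3
        · left; omega
        · exact Or.inr ⟨h3, h2⟩
      · rintro (h1 | ⟨h1, h2⟩)
        · rw [h1]; exact ⟨le_rfl, h⟩
        · exact ⟨by omega, h2⟩
    have h2 : T + 1 ∉ AT A T := by
      rw [mem_AT]; omega
    rw [h1, Finset.sum_insert h2, Finset.card_insert_of_notMem h2]
    push_cast; ring
  · have h1 : AT A (T + 1) = AT A T := by
      ext a
      rw [mem_AT, mem_AT]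
      constructor
      · rintro ⟨h1, h2⟩
        refine ⟨?_, h2⟩
        rcases Nat.lt_or_ge T a with h3 | h3
        · have : a = T + 1 := by omega
          rw [this] at h2
          exact absurd h2 h
        · exact h3
      · rintro ⟨h1, h2⟩
        exact ⟨by omega, h2⟩
    rw [h1]; ring

lemma S_upper (A : Set ℕ) (K₂ β : ℝ) (hK₂ : 0 ≤ K₂) (hβ0 : 0 ≤ β) (hβ1 : β ≤ 1)
    (hc : ∀ n : ℕ, ((AT A n).card : ℝ) ≤ K₂ * ((n : ℝ) + 1) ^ β) (N : ℝ) (hN : 1 ≤ N) (T : ℕ) :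
    ∑ a ∈ AT A T, (1 - 1 / N) ^ a ≤ 3 * K₂ * N ^ β := by
  have hN0 : 0 < N := by linarith
  set ρ : ℝ := 1 - 1 / N with hρ
  have h1N : 1 / N ≤ 1 := by rw [div_le_one hN0]; exact hN
  have h1N0 : 0 < 1 / N := by positivity
  have hρ0 : 0 ≤ ρ := by rw [hρ]; linarith
  have hρ1 : ρ < 1 := by rw [hρ]; linarith
  set H : ℝ := K₂ * N ^ β with hH
  have hH0 : 0 ≤ H := by positivity
  have hg : ∀ n : ℕ, ((AT A n).card : ℝ) ≤ H * (1 + (n + 1) / N) := by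
    intro n
    refine (hc n).trans ?_
    rw [hH, mul_assoc]
    apply mul_le_mul_of_nonneg_left _ hK₂
    have h1 : ((n : ℝ) + 1) ^ β = N ^ β * (((n : ℝ) + 1) / N) ^ β := by
      rw [← Real.mul_rpow (by positivity) (by positivity)]
      congr 1; field_simp
    rw [h1]
    apply mul_le_mul_of_nonneg_left _ (by positivity)
    have h2 := rpow_one_add_le_one_add_mul_self (s := ((n : ℝ) + 1) / N - 1)
      (by have : 0 ≤ ((n : ℝ) + 1) / N := by positivity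
          linarith) hβ0 hβ1
    have h3 : 1 + (((n : ℝ) + 1) / N - 1) = ((n : ℝ) + 1) / N := by ring
    rw [h3] at h2
    refine h2.trans ?_
    have h4 : 0 ≤ ((n : ℝ) + 1) / N := by positivity
    nlinarith
  have key : ∀ T : ℕ, ∑ a ∈ AT A T, ρ ^ a + (H * (1 + (T + 1) / N) - (AT A T).card) * ρ ^ T ≤
      H * (1 + 1 / N) + H / N * ∑ n ∈ range T, ρ ^ (n + 1) := by
    intro T
    induction T with
    | zero =>
      have h1 : ∑ a ∈ AT A 0, ρ ^ a = (AT A 0).card := by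
        have : ∀ a ∈ AT A 0, ρ ^ a = 1 := by
          intro a ha
          have := (mem_AT.1 ha).1
          have h0 : a = 0 := by omega
          rw [h0, pow_zero]
        rw [Finset.sum_congr rfl this]; simp
      rw [h1]
      simp
    | succ T ih =>
      rw [AT_succ, Finset.sum_range_succ]
      have h1 : ρ ^ (T + 1) ≤ ρ ^ T := pow_le_pow_of_le_one hρ0 hρ1.le (by omega)
      have h2 := hg T
      have h3 : (H * (1 + ((T : ℝ) + 1) / N) - (AT A T).card) * ρ ^ (T + 1) ≤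
          (H * (1 + ((T : ℝ) + 1) / N) - (AT A T).card) * ρ ^ T :=
        mul_le_mul_of_nonneg_left h1 (by linarith)
      have h4 : H * (1 + (((T + 1 : ℕ) : ℝ) + 1) / N) = H * (1 + ((T : ℝ) + 1) / N) + H / N := by
        push_cast; field_simp; ring
      rw [h4]
      nlinarith
  have h1 := key T
  have h2 : 0 ≤ (H * (1 + (T + 1) / N) - (AT A T).card) * ρ ^ T :=
    mul_nonneg (by have := hg T; linarith) (by positivity)
  have h3 : ∑ n ∈ range T, ρ ^ (n + 1) ≤ N := by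
    have h4 : ∑ n ∈ range T, ρ ^ (n + 1) = ρ * ∑ n ∈ range T, ρ ^ n := by
      rw [Finset.mul_sum]
      exact Finset.sum_congr rfl fun n _ => by ring
    have h5 := mul_neg_geom_sum ρ T
    have h6 : 0 ≤ ∑ n ∈ range T, ρ ^ n := Finset.sum_nonneg fun _ _ => by positivity
    have h7 : 0 ≤ ρ ^ T := by positivity
    have h8 : (1 / N) * ∑ n ∈ range T, ρ ^ n ≤ 1 := by
      have : (1 - ρ) = 1 / N := by rw [hρ]; ring
      rw [this] at h5
      linarith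
    rw [div_mul_eq_mul_div, one_mul, div_le_one hN0] at h8
    rw [h4]
    nlinarith
  have h4 : H / N * ∑ n ∈ range T, ρ ^ (n + 1) ≤ H := by
    calc H / N * ∑ n ∈ range T, ρ ^ (n + 1) ≤ H / N * N :=
          mul_le_mul_of_nonneg_left h3 (by positivity)
      _ = H := by field_simp
  have h5 : H * (1 + 1 / N) ≤ 2 * H := by nlinarith
  have h6 : 3 * K₂ * N ^ β = 3 * H := by rw [hH]; ring
  rw [h6]
  linarith

/-- eventually positive -/
lemma ev_pos (k : ℕ) (hk : 1 ≤ k) (P : (Fin k → ℕ) → Prop) (hP : ∀ f, StrictMono f → P f)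
    (A : Set ℕ) (hA : A.Infinite) (n₀ : ℕ)
    (hmono : ∀ n ≥ n₀, rP k P A n ≤ rP k P A (n + 1)) :
    ∃ n₁ : ℕ, ∀ n ≥ n₁, 1 ≤ rP k P A n := by
  classical
  obtain ⟨e, he⟩ : ∃ e : ℕ → ℕ, StrictMono e ∧ ∀ i, e i ∈ A := by
    have := hA.to_subtype
    exact ⟨Nat.orderEmbeddingOfSet A, (Nat.orderEmbeddingOfSet A).strictMono,
      fun i => by
        have h := Set.mem_range_self (f := Nat.orderEmbeddingOfSet A) i
        rwa [Nat.orderEmbeddingOfSet_range] at h⟩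
  set f : Fin k → ℕ := fun i => e (n₀ + i) with hf
  have hfs : StrictMono f := fun i j hij => he.1 (by
    have : (i : ℕ) < j := hij
    omega)
  set n₁ := ∑ i, f i with hn₁
  have h1 : n₀ ≤ n₁ := by
    have h2 := le_sum f ⟨0, hk⟩
    have h3 : n₀ + 0 ≤ e (n₀ + 0) := he.1.le_apply
    have h4 : f ⟨0, hk⟩ = e (n₀ + 0) := rfl
    omega
  refine ⟨n₁, fun n hn => ?_⟩
  induction n, hn using Nat.le_induction with
  | base =>
    rw [rP_eq k P A n₁ n₁ le_rfl]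
    unfold rT
    rw [Nat.one_le_iff_ne_zero, Ne, Finset.card_eq_zero, ← Ne, ← Finset.nonempty_iff_ne_empty]
    refine ⟨f, Finset.mem_filter.2 ⟨mem_tup.2 ⟨fun i => mem_AT.2 ⟨le_sum f i, he.2 _⟩,
      hP f hfs⟩, rfl⟩⟩
  | succ n hn ih => exact ih.trans (hmono n (h1.trans hn))

lemma S_lower (k : ℕ) (P : (Fin k → ℕ) → Prop) (A : Set ℕ) (n₁ : ℕ)
    (hpos : ∀ n ≥ n₁, 1 ≤ rP k P A n) (i : ℕ) (hi : n₁ ≤ 2 ^ i) (T : ℕ) (hT : 2 ^ (i + 1) ≤ T)
    (hk : 1 ≤ k) :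
    (2 : ℝ) ^ i / 2 ≤ (∑ a ∈ AT A T, (1 - 1 / (2 : ℝ) ^ (i + 2)) ^ a) ^ k := by
  have h2i : (1 : ℝ) ≤ 2 ^ i := one_le_pow₀ (by norm_num)
  have hp : (2 : ℝ) ^ (i + 2) = 4 * 2 ^ i := by rw [pow_add]; norm_num; ring
  set ρ : ℝ := 1 - 1 / (2 : ℝ) ^ (i + 2) with hρ
  have hinv : 1 / (2 : ℝ) ^ (i + 2) ≤ 1 := by
    rw [div_le_one (by positivity), hp]; linarith
  have hρ0 : 0 ≤ ρ := by rw [hρ]; linarith
  refine le_trans ?_ (gen_le k P (AT A T) T (fun a ha => (mem_AT.1 ha).1) ρ hρ0)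
  have hsub : Ico (2 ^ i) (2 ^ (i + 1)) ⊆ range (k * T + 1) := by
    intro n hn
    rw [Finset.mem_Ico] at hn
    rw [Finset.mem_range]
    nlinarith
  refine le_trans ?_ (Finset.sum_le_sum_of_subset_of_nonneg hsub fun n _ _ => by positivity)
  have h1 : ∀ n ∈ Ico (2 ^ i) (2 ^ (i + 1)), (1 / 2 : ℝ) ≤ (rT k P (AT A T) n : ℝ) * ρ ^ n := by
    intro n hn
    rw [Finset.mem_Ico] at hn
    have h2 : 1 ≤ rT k P (AT A T) n := by
      rw [← rP_eq k P A T n (by omega)]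
      exact hpos n (by omega)
    have h2' : (1 : ℝ) ≤ rT k P (AT A T) n := by exact_mod_cast h2
    have h3 : (1 / 2 : ℝ) ≤ ρ ^ n := by
      have h4 := one_add_mul_le_pow (a := -(1 / (2 : ℝ) ^ (i + 2))) (by linarith) n
      have h5 : 1 + -(1 / (2 : ℝ) ^ (i + 2)) = ρ := by rw [hρ]; ring
      rw [h5] at h4
      refine le_trans ?_ h4
      have h6 : (n : ℝ) ≤ 2 * 2 ^ i := by
        have : n ≤ 2 ^ (i + 1) := hn.2.le
        have h7 : (n : ℝ) ≤ (2 : ℝ) ^ (i + 1) := by exact_mod_cast this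
        rw [pow_succ] at h7; linarith
      have h8 : (n : ℝ) * (1 / (2 : ℝ) ^ (i + 2)) ≤ 1 / 2 := by
        rw [hp, mul_one_div, div_le_div_iff₀ (by positivity) (by norm_num)]
        linarith
      linarith
    nlinarith
  have h2 := Finset.sum_le_sum h1
  rw [Finset.sum_const, Nat.card_Ico, nsmul_eq_mul] at h2
  have h3 : ((2 ^ (i + 1) - 2 ^ i : ℕ) : ℝ) = 2 ^ i := by
    have : 2 ^ (i + 1) - 2 ^ i = 2 ^ i := by rw [pow_succ]; omega
    rw [this]; push_cast; rfl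
  rw [h3] at h2
  linarith

lemma two_pow_rpow (i : ℕ) (x : ℝ) : ((2 : ℝ) ^ i) ^ x = ((2 : ℝ) ^ x) ^ i := by
  rw [← Real.rpow_natCast, ← Real.rpow_natCast, ← Real.rpow_mul (by norm_num),
    ← Real.rpow_mul (by norm_num), mul_comm]

/-- The core contradiction. -/
lemma core (k : ℕ) (hk : 2 ≤ k) (P : (Fin k → ℕ) → Prop) (hP : ∀ f, StrictMono f → P f)
    (hPB : ∃ K₀ : ℝ, 0 < K₀ ∧ PB k P K₀) (A : Set ℕ) (hA : A.Infinite) (n₀ : ℕ)
    (hmono : ∀ n ≥ n₀, rP k P A n ≤ rP k P A (n + 1)) (ε : ℝ) (hε : 0 < ε) (hεk : ε ≤ 1 / (k : ℝ))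
    (K₂ : ℝ) (hK₂ : 0 < K₂)
    (hc : ∀ n : ℕ, ((AT A n).card : ℝ) ≤ K₂ * ((n : ℝ) + 1) ^ (2 / (k : ℝ) - ε)) : False := by
  obtain ⟨K₀, hK₀, hPB⟩ := hPB
  have hkR : (2 : ℝ) ≤ k := by exact_mod_cast hk
  have hk0 : (0 : ℝ) < k := by linarith
  have h1k : 0 < 1 / (k : ℝ) := by positivity
  have h2k : 2 / (k : ℝ) = 2 * (1 / (k : ℝ)) := by ring
  have h2k1 : 2 / (k : ℝ) ≤ 1 := by rw [div_le_one hk0]; exact hkR
  set β : ℝ := 2 / (k : ℝ) - ε with hβ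
  have hβ0 : 0 < β := by rw [hβ]; linarith
  have hβ1 : β ≤ 1 := by rw [hβ]; linarith
  obtain ⟨K, hK, hmain⟩ := main_ineq k hk P K₀ hK₀ hPB A n₀ hmono (ε / 2) (by linarith)
    (by linarith)
  obtain ⟨n₁, hn₁⟩ := ev_pos k (by omega) P hP A hA n₀ hmono
  set s : ℕ → ℕ → ℝ := fun T i => ∑ a ∈ AT A T, (1 - 1 / (2 : ℝ) ^ i) ^ a with hs
  have hnn : ∀ T i, 0 ≤ s T i := by
    intro T i
    refine Finset.sum_nonneg fun a _ => ?_
    have h1 : 1 / (2 : ℝ) ^ i ≤ 1 := by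
      rw [div_le_one (by positivity)]
      exact one_le_pow₀ (by norm_num)
    exact pow_nonneg (by linarith) _
  -- upper bound
  have F1 : ∀ T i, s T i ≤ 3 * K₂ * ((2 : ℝ) ^ β) ^ i := by
    intro T i
    rw [← two_pow_rpow]
    exact S_upper A K₂ β hK₂.le hβ0.le hβ1 hc ((2 : ℝ) ^ i) (one_le_pow₀ (by norm_num)) T
  -- lower bound
  have F2 : ∀ i, n₁ ≤ 2 ^ i → ∀ T, 2 ^ (i + 1) ≤ T →
      (1 / 8 : ℝ) ^ (1 / (k : ℝ)) * ((2 : ℝ) ^ (1 / (k : ℝ))) ^ (i + 2) ≤ s T (i + 2) := by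
    intro i hi T hT
    have h1 := S_lower k P A n₁ hn₁ i hi T hT (by omega)
    have h2 : ((2 : ℝ) ^ i / 2) ^ (1 / (k : ℝ)) ≤ ((s T (i + 2)) ^ k) ^ (1 / (k : ℝ)) :=
      Real.rpow_le_rpow (by positivity) h1 (by positivity)
    rw [← Real.rpow_natCast (s T (i + 2)) k, ← Real.rpow_mul (hnn _ _), mul_one_div_cancel hk0.ne',
      Real.rpow_one] at h2
    refine le_trans (le_of_eq ?_) h2
    rw [← two_pow_rpow, ← Real.mul_rpow (by norm_num) (by positivity)]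
    congr 1
    rw [pow_add]; ring
  -- the recursive inequality
  have F3 : ∀ i, 1 ≤ i → ∃ T₁ : ℕ, ∀ T ≥ T₁, s T i ≤ K * (((2 : ℝ) ^ (ε / 2)) ^ (i + 1) +
      ((2 : ℝ) ^ (ε / 2 - 2 / (k : ℝ))) ^ (i + 1) * (s T (i + 1)) ^ 2) := by
    intro i hi
    obtain ⟨T₁, hT₁⟩ := hmain ((2 : ℝ) ^ (i + 1)) (by
      calc (2 : ℝ) = 2 ^ 1 := by norm_num
        _ ≤ 2 ^ (i + 1) := pow_le_pow_right₀ (by norm_num) (by omega))
    refine ⟨T₁, fun T hT => ?_⟩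
    have h1 := hT₁ T hT
    rw [two_pow_rpow, two_pow_rpow] at h1
    refine le_trans ?_ h1
    refine Finset.sum_le_sum fun a _ => ?_
    have h2 : (0 : ℝ) ≤ 1 - 1 / 2 ^ i := by
      have : 1 / (2 : ℝ) ^ i ≤ 1 := by
        rw [div_le_one (by positivity)]
        exact one_le_pow₀ (by norm_num)
      linarith
    apply pow_le_pow_left₀ h2
    have h3 : 1 / (2 : ℝ) ^ i = 2 * (1 / (2 : ℝ) ^ (i + 1)) := by
      rw [pow_succ]; field_simp
    rw [h3]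
    nlinarith [sq_nonneg (1 / (2 : ℝ) ^ (i + 1))]
  -- combine F3 with F1
  set q : ℝ := (2 : ℝ) ^ (-(ε / 2)) with hq
  have hq0 : 0 < q := by positivity
  have hq1 : q < 1 := Real.rpow_lt_one_of_one_lt_of_neg (by norm_num) (by linarith)
  have hqβ : (2 : ℝ) ^ (ε / 2 - 2 / (k : ℝ)) * (2 : ℝ) ^ β = q := by
    rw [← Real.rpow_add (by norm_num), hq]
    congr 1
    rw [hβ]; ring
  have F4 : ∀ i, 1 ≤ i → ∃ T₁ : ℕ, ∀ T ≥ T₁, s T i ≤ K * ((2 : ℝ) ^ (ε / 2)) ^ (i + 1) +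
      3 * K₂ * K * q ^ (i + 1) * s T (i + 1) := by
    intro i hi
    obtain ⟨T₁, hT₁⟩ := F3 i hi
    refine ⟨T₁, fun T hT => (hT₁ T hT).trans ?_⟩
    rw [mul_add]
    refine add_le_add le_rfl ?_
    have h1 := F1 T (i + 1)
    have h2 := hnn T (i + 1)
    calc K * (((2 : ℝ) ^ (ε / 2 - 2 / (k : ℝ))) ^ (i + 1) * s T (i + 1) ^ 2)
        = K * ((2 : ℝ) ^ (ε / 2 - 2 / (k : ℝ))) ^ (i + 1) * s T (i + 1) * s T (i + 1) := by ring
      _ ≤ K * ((2 : ℝ) ^ (ε / 2 - 2 / (k : ℝ))) ^ (i + 1) * (3 * K₂ * ((2 : ℝ) ^ β) ^ (i + 1)) *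
          s T (i + 1) := by gcongr
      _ = 3 * K₂ * K * ((2 : ℝ) ^ (ε / 2 - 2 / (k : ℝ)) * (2 : ℝ) ^ β) ^ (i + 1) * s T (i + 1) := by
          rw [mul_pow]; ring
      _ = _ := by rw [hqβ]
  -- thresholds
  set c₁ : ℝ := (1 / 8 : ℝ) ^ (1 / (k : ℝ)) with hc₁
  have hc₁0 : 0 < c₁ := by positivity
  set b : ℝ := (2 : ℝ) ^ (1 / (k : ℝ) - ε / 2) with hb
  have hb1 : 1 < b := Real.one_lt_rpow (by norm_num) (by linarith)
  have hbe : b * (2 : ℝ) ^ (ε / 2) = (2 : ℝ) ^ (1 / (k : ℝ)) := by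
    rw [hb, ← Real.rpow_add (by norm_num)]
    congr 1; ring
  set g : ℝ := (2 : ℝ) ^ (ε / 2) with hg
  have hg0 : 0 < g := by positivity
  have ev1 := (tendsto_pow_atTop_atTop_of_one_lt hb1).eventually
    (Filter.eventually_ge_atTop (2 * K * g / c₁))
  have ev2 := (tendsto_pow_atTop_nhds_zero_of_lt_one hq0.le hq1).eventually
    (gt_mem_nhds (show (0 : ℝ) < ((2 : ℝ) ^ (β + 1))⁻¹ / (6 * K₂ * K) by positivity))
  obtain ⟨i₁, hi₁⟩ := Filter.eventually_atTop.1 ev1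
  obtain ⟨i₂, hi₂⟩ := Filter.eventually_atTop.1 ev2
  set I := i₁ + i₂ + n₁ + 2 with hI
  have hn₁I : ∀ i, I ≤ i → n₁ ≤ 2 ^ (i - 2) := by
    intro i hi
    calc n₁ ≤ i - 2 := by omega
      _ ≤ 2 ^ (i - 2) := Nat.lt_two_pow_self.le
  have F2' : ∀ i, I ≤ i → ∀ T, 2 ^ i ≤ T → c₁ * ((2 : ℝ) ^ (1 / (k : ℝ))) ^ i ≤ s T i := by
    intro i hi T hT
    have h1 := F2 (i - 2) (hn₁I i hi) T (le_trans (Nat.pow_le_pow_right (by norm_num) (by omega)) hT)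
    have h2 : i - 2 + 2 = i := by omega
    rwa [h2] at h1
  have F5 : ∀ i, I ≤ i → ∃ T₁ : ℕ, ∀ T ≥ T₁, (2 : ℝ) ^ (β + 1) * s T i ≤ s T (i + 1) := by
    intro i hi
    obtain ⟨T₁, hT₁⟩ := F4 i (by omega)
    refine ⟨max T₁ (2 ^ i), fun T hT => ?_⟩
    have h1 := hT₁ T ((le_max_left _ _).trans hT)
    have h2 := F2' i hi T ((le_max_right _ _).trans hT)
    have h3 : 2 * (K * g ^ (i + 1)) ≤ s T i := by
      refine le_trans ?_ h2
      have h4 := hi₁ i (by omega)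
      have h5 : 2 * K * g ≤ c₁ * b ^ i := by
        have h6 : 2 * K * g / c₁ ≤ b ^ i := h4
        rw [div_le_iff₀ hc₁0] at h6
        linarith
      calc 2 * (K * g ^ (i + 1)) = (2 * K * g) * g ^ i := by ring
        _ ≤ (c₁ * b ^ i) * g ^ i := mul_le_mul_of_nonneg_right h5 (by positivity)
        _ = c₁ * (b * g) ^ i := by rw [mul_pow]; ring
        _ = _ := by rw [hbe]
    have h6 : s T i ≤ 6 * K₂ * K * q ^ (i + 1) * s T (i + 1) := by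
      nlinarith
    have h7 : q ^ (i + 1) ≤ ((2 : ℝ) ^ (β + 1))⁻¹ / (6 * K₂ * K) := (hi₂ (i + 1) (by omega)).le
    have h8 : 6 * K₂ * K * q ^ (i + 1) ≤ ((2 : ℝ) ^ (β + 1))⁻¹ := by
      rw [le_div_iff₀ (by positivity)] at h7
      linarith
    have h9 : s T i ≤ ((2 : ℝ) ^ (β + 1))⁻¹ * s T (i + 1) :=
      h6.trans (mul_le_mul_of_nonneg_right h8 (hnn _ _))
    have h10 : (0 : ℝ) < (2 : ℝ) ^ (β + 1) := by positivity
    rw [inv_mul_eq_div, le_div_iff₀ h10] at h9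
    linarith
  have F6 : ∀ J : ℕ, ∃ T₁ : ℕ, ∀ T ≥ T₁, ((2 : ℝ) ^ (β + 1)) ^ J * s T I ≤ s T (I + J) := by
    intro J
    induction J with
    | zero => exact ⟨0, fun T _ => by simp⟩
    | succ J ih =>
      obtain ⟨T₁, hT₁⟩ := ih
      obtain ⟨T₂, hT₂⟩ := F5 (I + J) (by omega)
      refine ⟨max T₁ T₂, fun T hT => ?_⟩
      have h1 := hT₁ T ((le_max_left _ _).trans hT)
      have h2 := hT₂ T ((le_max_right _ _).trans hT)
      calc ((2 : ℝ) ^ (β + 1)) ^ (J + 1) * s T I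
          = (2 : ℝ) ^ (β + 1) * (((2 : ℝ) ^ (β + 1)) ^ J * s T I) := by ring
        _ ≤ (2 : ℝ) ^ (β + 1) * s T (I + J) := by gcongr
        _ ≤ s T (I + J + 1) := h2
  have hpos : 0 < c₁ * ((2 : ℝ) ^ (1 / (k : ℝ))) ^ I := by positivity
  set c₂ := c₁ * ((2 : ℝ) ^ (1 / (k : ℝ))) ^ I with hc₂
  -- contradiction
  have ev3 := (tendsto_pow_atTop_atTop_of_one_lt (one_lt_two (α := ℝ))).eventually
    (Filter.eventually_gt_atTop (3 * K₂ * ((2 : ℝ) ^ β) ^ I / c₂))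
  obtain ⟨J, hJ⟩ := ev3.exists
  obtain ⟨T₁, hT₁⟩ := F6 J
  have h1 := hT₁ (max T₁ (2 ^ I)) (le_max_left _ _)
  have h2 := F2' I le_rfl (max T₁ (2 ^ I)) (le_max_right _ _)
  have h3 := F1 (max T₁ (2 ^ I)) (I + J)
  have h4 : ((2 : ℝ) ^ (β + 1)) ^ J * c₂ ≤ 3 * K₂ * ((2 : ℝ) ^ β) ^ (I + J) :=
    (mul_le_mul_of_nonneg_left h2 (by positivity)).trans (h1.trans h3)
  have h5 : ((2 : ℝ) ^ (β + 1)) ^ J = ((2 : ℝ) ^ β) ^ J * 2 ^ J := by
    rw [← mul_pow, Real.rpow_add_one (by norm_num)]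
  have h6 : (0 : ℝ) < ((2 : ℝ) ^ β) ^ J := by positivity
  rw [h5, pow_add] at h4
  have h7 : ((2 : ℝ) ^ β) ^ J * (2 ^ J * c₂) ≤ ((2 : ℝ) ^ β) ^ J * (3 * K₂ * ((2 : ℝ) ^ β) ^ I) := by
    linarith
  have h8 := le_of_mul_le_mul_left h7 h6
  have h9 : 3 * K₂ * ((2 : ℝ) ^ β) ^ I < 2 ^ J * c₂ := by
    rwa [div_lt_iff₀ hpos] at hJ
  linarith

end Pool.Agent.H510R2.Incr
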